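import Mathlib
import Pool.Agent.H559R2.SharingDefs

/-!
# Circuits, partitions of their gates, tree decompositions, and the explicit function

Definitions only. Circuits are those of `Pool.Agent.H559R2.SharingDefs` (fan-in at most two,
arbitrary gates, `q` guess bits).
-/

open Finset

namespace Pool.Agent.H468R2.Frag

open Pool.Agent.H559R2.Sharing

/-- The vertices of the gate graph: the guess bits and the gates. -/
abbrev Node (q s : ℕ) := Fin q ⊕ Fin s

/-- A node as a source of wires. -/
def Node.src {n q s : ℕ} : Node q s → Src n q s
  | .inl j => .inl (.inr j)
  | .inr g => .inr g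

/-- There is a wire from the node `v` (a guess bit or a gate) to the gate `g`. -/
def Feeds {n q : ℕ} (C : Circuit n q) (v : Node q C.size) (g : Fin C.size) : Prop :=
  (Node.src v : Src n q C.size) ∈ (C.gate g).wires

/-- There is a wire from the input variable `i` to the gate `g`. -/
def ReadsVar {n q : ℕ} (C : Circuit n q) (i : Fin n) (g : Fin C.size) : Prop :=
  (Sum.inl (Sum.inl i) : Src n q C.size) ∈ (C.gate g).wires

open Classical in
/-- The input variables read by the gates of block `b`. -/
noncomputable def blockVars {n q : ℕ} {B : Type} (C : Circuit n q) (κ : Node q C.size → B)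
    (b : B) : Finset (Fin n) :=
  univ.filter fun i => ∃ g, κ (.inr g) = b ∧ ReadsVar C i g

open Classical in
/-- The boundary of a partition: the nodes which feed a gate of another block. -/
noncomputable def boundary {n q : ℕ} {B : Type} (C : Circuit n q) (κ : Node q C.size → B) :
    Finset (Node q C.size) :=
  univ.filter fun v => ∃ g, Feeds C v g ∧ κ (.inr g) ≠ κ v

/-- The undirected gate graph: two nodes are adjacent if one feeds the other. -/
def gateAdj {n q : ℕ} (C : Circuit n q) (u v : Node q C.size) : Prop :=
  (∃ g, v = .inr g ∧ Feeds C u g) ∨ (∃ g, u = .inr g ∧ Feeds C v g)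

/-- The graph with adjacency relation `adj` has a tree decomposition of width at most `t`. The
tree is rooted at node `0` and given by the parent function `par`, where `par i < i`; the nodes
whose bags contain a given vertex form a nonempty subtree, i.e. exactly one of them is the root
or has a parent whose bag does not contain the vertex. -/
def HasTreeDec {V : Type} (adj : V → V → Prop) (t : ℕ) : Prop :=
  ∃ (T : ℕ) (par : Fin (T + 1) → Fin (T + 1)) (bag : Fin (T + 1) → Finset V),
    (∀ i, 0 < i → par i < i) ∧ (∀ i, (bag i).card ≤ t + 1) ∧
    (∀ v, ∃! i, v ∈ bag i ∧ (i = 0 ∨ v ∉ bag (par i))) ∧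
    (∀ u v, adj u v → ∃ i, u ∈ bag i ∧ v ∈ bag i)

/-! ### The explicit function -/

/-- The `i`-th bit of `x` (`false` beyond the length of `x`). -/
def bit {N : ℕ} (x : Fin N → Bool) (i : ℕ) : Bool := if h : i < N then x ⟨i, h⟩ else false

/-- The letter at position `p` is the separator: control bit `1`, data bit `1`. -/
def sepAt {N : ℕ} (x : Fin N → Bool) (p : ℕ) : Bool := bit x p && bit x (N / 2 + p)

/-- The letter at position `p` is `0` or `1` (the data bit): control bit `0`. -/
def actAt {N : ℕ} (x : Fin N → Bool) (p : ℕ) : Bool := !bit x p

/-- The number of separators before position `p`: the number of the word containing `p`. -/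
def cls {N : ℕ} (x : Fin N → Bool) (p : ℕ) : ℕ :=
  ((List.range p).filter fun p' => sepAt x p').length

/-- The number of letters `0`, `1` before position `p` in its word. -/
def rnk {N : ℕ} (x : Fin N → Bool) (p : ℕ) : ℕ :=
  ((List.range p).filter fun p' => actAt x p' && decide (cls x p' = cls x p)).length

/-- In every word the letter number `l` exists and is `1`. -/
def colAll {N : ℕ} (x : Fin N → Bool) (l : ℕ) : Bool :=
  (List.range (cls x (N / 2) + 1)).all fun j => (List.range (N / 2)).any fun p =>
    actAt x p && decide (cls x p = j) && decide (rnk x p = l) && bit x (N / 2 + p)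

/-- The explicit function. The first half of `x` consists of control bits and the second half of
data bits; together they encode a word over the alphabet `0`, `1`, blank, separator (control bit
`0`: the letter is the data bit; control `1`, data `0`: blank; control `1`, data `1`: separator).
Split this word at the separators and delete the blanks. The value is the parity of the number of
`l` such that the `l`-th letter of each of the words exists and is `1`. -/
def gipFun (N : ℕ) (x : Fin N → Bool) : Bool :=
  decide (Odd ((List.range (N / 2)).filter (colAll x)).length)

end Pool.Agent.H468R2.Frag
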