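import Mathlib
import Pool.Agent.H468R2.Frag.Defs

/-! Module C: the choice of the players (second moment method). -/

open Finset

namespace Pool.Agent.H468R2.Frag

namespace ChooseP

variable {B : Type} [Fintype B] [DecidableEq B]

/-- number of colourings which avoid the colour `j` on `D` -/
theorem card_avoid (k : ℕ) (hk : 2 ≤ k) (D : Finset B) (j : Fin k) :
    ((univ.filter fun p : B → Fin k => ∀ b ∈ D, p b ≠ j).card : ℝ)
      = (k : ℝ) ^ Fintype.card B * (1 - 1 / (k : ℝ)) ^ D.card := by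
  have hk0 : (k : ℝ) ≠ 0 := by positivity
  have h1 : (univ.filter fun p : B → Fin k => ∀ b ∈ D, p b ≠ j)
      = Fintype.piFinset (fun b => if b ∈ D then univ.erase j else (univ : Finset (Fin k))) := by
    ext p
    simp only [mem_filter, mem_univ, true_and, Fintype.mem_piFinset]
    constructor
    · intro h b
      by_cases hb : b ∈ D
      · rw [if_pos hb]; simp [h b hb]
      · rw [if_neg hb]; simp
    · intro h b hb
      have := h b
      rw [if_pos hb] at this
      exact (Finset.mem_erase.mp this).1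
  rw [h1, Fintype.card_piFinset]
  push_cast
  have h2 : ∀ b : B, (((if b ∈ D then univ.erase j else (univ : Finset (Fin k))).card : ℕ) : ℝ)
      = (k : ℝ) * (if b ∈ D then (1 - 1 / (k : ℝ)) else 1) := by
    intro b
    by_cases hb : b ∈ D
    · rw [if_pos hb, if_pos hb, Finset.card_erase_of_mem (Finset.mem_univ j), Finset.card_univ,
        Fintype.card_fin, Nat.cast_sub (by omega)]
      field_simp
      push_cast
      ring
    · rw [if_neg hb, if_neg hb, Finset.card_univ, Fintype.card_fin, mul_one]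
  rw [Finset.prod_congr rfl fun b _ => h2 b, Finset.prod_mul_distrib, Finset.prod_const,
    Finset.card_univ, Finset.prod_ite_mem, Finset.univ_inter, Finset.prod_const]

/-- indicator that `p` avoids the colour `j` on `D` -/
noncomputable def Jn {k : ℕ} (D : Finset B) (j : Fin k) (p : B → Fin k) : ℝ :=
  if ∀ b ∈ D, p b ≠ j then 1 else 0

theorem sum_Jn (k : ℕ) (hk : 2 ≤ k) (D : Finset B) (j : Fin k) :
    ∑ p : B → Fin k, Jn D j p = (k : ℝ) ^ Fintype.card B * (1 - 1 / (k : ℝ)) ^ D.card := by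
  unfold Jn
  rw [Finset.sum_boole, card_avoid k hk]

theorem Jn_mul {k : ℕ} (D D' : Finset B) (j : Fin k) (p : B → Fin k) :
    Jn D j p * Jn D' j p = Jn (D ∪ D') j p := by
  unfold Jn
  by_cases h : ∀ b ∈ D, p b ≠ j
  · by_cases h' : ∀ b ∈ D', p b ≠ j
    · rw [if_pos h, if_pos h', if_pos, one_mul]
      intro b hb
      rcases Finset.mem_union.mp hb with hb | hb
      · exact h b hb
      · exact h' b hb
    · rw [if_pos h, if_neg h', if_neg, mul_zero]
      intro h2
      exact h' fun b hb => h2 b (Finset.mem_union_right _ hb)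
  · rw [if_neg h, zero_mul, if_neg]
    intro h2
    exact h fun b hb => h2 b (Finset.mem_union_left _ hb)

theorem var_bound (k : ℕ) (hk : 2 ≤ k) {g : ℕ} (E : Fin g → Finset B) (j : Fin k) (c r : ℕ)
    (hE : ∀ l, (E l).card ≤ c) (hr : ∀ b, (univ.filter fun l => b ∈ E l).card ≤ r) :
    ∑ p : B → Fin k, ((∑ l, Jn (E l) j p) - ∑ l, (1 - 1 / (k : ℝ)) ^ (E l).card) ^ 2
      ≤ (k : ℝ) ^ Fintype.card B * (g * (c * r)) := by
  set a : ℝ := 1 - 1 / (k : ℝ) with ha
  set M : ℝ := (k : ℝ) ^ Fintype.card B with hM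
  set μ : ℝ := ∑ l, a ^ (E l).card with hμ
  have hk0 : (2 : ℝ) ≤ k := by exact_mod_cast hk
  have ha0 : 0 ≤ a := by
    rw [ha, sub_nonneg, div_le_one (by linarith)]; linarith
  have ha1 : a ≤ 1 := by
    rw [ha]; have : 0 ≤ 1 / (k : ℝ) := by positivity
    linarith
  have hM0 : 0 ≤ M := by positivity
  have e1 : ∀ p : B → Fin k, ((∑ l, Jn (E l) j p) - μ) ^ 2
      = (∑ l, ∑ l', Jn (E l ∪ E l') j p) - 2 * μ * (∑ l, Jn (E l) j p) + μ ^ 2 := by
    intro p
    have : (∑ l, ∑ l', Jn (E l ∪ E l') j p) = (∑ l, Jn (E l) j p) * (∑ l, Jn (E l) j p) := by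
      rw [Finset.sum_mul_sum]
      exact Finset.sum_congr rfl fun l _ => Finset.sum_congr rfl fun l' _ => (Jn_mul _ _ _ _).symm
    rw [this]; ring
  have e2 : ∑ p : B → Fin k, ((∑ l, Jn (E l) j p) - μ) ^ 2
      = M * ((∑ l, ∑ l', a ^ (E l ∪ E l').card) - μ ^ 2) := by
    rw [Finset.sum_congr rfl fun p _ => e1 p, Finset.sum_add_distrib, Finset.sum_sub_distrib,
      ← Finset.mul_sum, Finset.sum_comm, Finset.sum_comm (f := fun p l => Jn (E l) j p)]
    have h1 : ∀ l : Fin g, ∑ p : B → Fin k, ∑ l', Jn (E l ∪ E l') j p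
        = M * ∑ l', a ^ (E l ∪ E l').card := by
      intro l
      rw [Finset.sum_comm, Finset.mul_sum]
      exact Finset.sum_congr rfl fun l' _ => sum_Jn k hk _ j
    have h2 : ∀ l : Fin g, ∑ p : B → Fin k, Jn (E l) j p = M * a ^ (E l).card :=
      fun l => sum_Jn k hk _ j
    rw [Finset.sum_congr rfl fun l _ => h1 l, Finset.sum_congr rfl fun l _ => h2 l,
      ← Finset.mul_sum, ← Finset.mul_sum, ← hμ, Finset.sum_const, Finset.card_univ,
      Fintype.card_fun, Fintype.card_fin, nsmul_eq_mul]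
    push_cast
    rw [← hM]
    ring
  have e3 : μ ^ 2 = ∑ l, ∑ l', a ^ ((E l).card + (E l').card) := by
    rw [sq, hμ, Finset.sum_mul_sum]
    exact Finset.sum_congr rfl fun l _ => Finset.sum_congr rfl fun l' _ => (pow_add _ _ _).symm
  rw [e2]
  apply mul_le_mul_of_nonneg_left _ hM0
  rw [e3, ← Finset.sum_sub_distrib]
  have h4 : ∀ l : Fin g, (∑ l', a ^ (E l ∪ E l').card) - (∑ l', a ^ ((E l).card + (E l').card))
      ≤ (c * r : ℝ) := by
    intro l
    rw [← Finset.sum_sub_distrib]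
    have h5 : ∀ l' : Fin g, a ^ (E l ∪ E l').card - a ^ ((E l).card + (E l').card)
        ≤ if ¬ Disjoint (E l) (E l') then (1 : ℝ) else 0 := by
      intro l'
      by_cases hd : Disjoint (E l) (E l')
      · rw [if_neg (not_not.mpr hd), Finset.card_union_of_disjoint hd, sub_self]
      · rw [if_pos hd]
        have h6 : a ^ (E l ∪ E l').card ≤ 1 := pow_le_one₀ ha0 ha1
        have h7 : 0 ≤ a ^ ((E l).card + (E l').card) := pow_nonneg ha0 _
        linarith
    refine (Finset.sum_le_sum fun l' _ => h5 l').trans ?_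
    rw [Finset.sum_boole]
    have h8 : (univ.filter fun l' => ¬ Disjoint (E l) (E l')) ⊆
        (E l).biUnion fun b => univ.filter fun l' => b ∈ E l' := by
      intro l' hl'
      rw [Finset.mem_filter] at hl'
      rw [Finset.not_disjoint_iff] at hl'
      obtain ⟨_, b, hb, hb'⟩ := hl'
      rw [Finset.mem_biUnion]
      exact ⟨b, hb, Finset.mem_filter.mpr ⟨Finset.mem_univ _, hb'⟩⟩
    have h9 : (univ.filter fun l' => ¬ Disjoint (E l) (E l')).card ≤ c * r := by
      refine (Finset.card_le_card h8).trans (Finset.card_biUnion_le.trans ?_)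
      refine (Finset.sum_le_sum fun b _ => hr b).trans ?_
      rw [Finset.sum_const, smul_eq_mul]
      exact Nat.mul_le_mul_right _ (hE l)
    exact_mod_cast h9
  refine (Finset.sum_le_sum fun l _ => h4 l).trans ?_
  rw [Finset.sum_const, Finset.card_univ, Fintype.card_fin, nsmul_eq_mul]

theorem quarter (k : ℕ) (hk : 2 ≤ k) : (1 / 4 : ℝ) ≤ (1 - 1 / (k : ℝ)) ^ k := by
  have hk0 : (2 : ℝ) ≤ k := by exact_mod_cast hk
  have h1 := one_add_mul_self_le_rpow_one_add (s := -(1 / (k : ℝ))) (p := (k : ℝ) / 2)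
    (by
      have : 1 / (k : ℝ) ≤ 1 := by rw [div_le_one (by linarith)]; linarith
      linarith) (by linarith)
  have h2 : (1 : ℝ) + (k : ℝ) / 2 * -(1 / (k : ℝ)) = 1 / 2 := by
    field_simp; ring
  rw [h2, ← sub_eq_add_neg] at h1
  have ha0 : 0 ≤ 1 - 1 / (k : ℝ) := by
    rw [sub_nonneg, div_le_one (by linarith)]; linarith
  have h3 : ((1 - 1 / (k : ℝ)) ^ ((k : ℝ) / 2)) ^ 2 = (1 - 1 / (k : ℝ)) ^ k := by
    rw [← Real.rpow_natCast ((1 - 1 / (k : ℝ)) ^ ((k : ℝ) / 2)) 2, ← Real.rpow_mul ha0,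
      ← Real.rpow_natCast]
    congr 1
    push_cast; ring
  rw [← h3]
  nlinarith [h1]

end ChooseP

open ChooseP in
/-- Module C. -/
theorem choose_players {B : Type} [Fintype B] [DecidableEq B] {n : ℕ} (D : Fin n → Finset B)
    (k g r : ℕ) (hk : 2 ≤ k) (e : Fin k → Fin g → Fin n) (he : ∀ j, Function.Injective (e j))
    (hD : ∀ j l, (D (e j l)).card ≤ k ^ 2)
    (hr : ∀ b, (univ.filter fun i => b ∈ D i).card ≤ r)
    (hg : 4 * k ^ 3 * 16 ^ k * r < g) :
    ∃ p : B → Fin k, ∀ j,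
      g ≤ 2 * 4 ^ k * (univ.filter fun l : Fin g => ∀ b ∈ D (e j l), p b ≠ j).card := by
  by_contra hcon
  push Not at hcon
  have hk0 : (2 : ℝ) ≤ k := by exact_mod_cast hk
  set a : ℝ := 1 - 1 / (k : ℝ) with ha
  have ha0 : 0 ≤ a := by
    rw [ha, sub_nonneg, div_le_one (by linarith)]; linarith
  have ha1 : a ≤ 1 := by
    rw [ha]; have : 0 ≤ 1 / (k : ℝ) := by positivity
    linarith
  set M : ℝ := (k : ℝ) ^ Fintype.card B with hM
  have hM0 : 0 < M := by positivity
  have hg0 : (0 : ℝ) < g := by exact_mod_cast (by omega : 0 < g)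
  have h4k : (0 : ℝ) < 4 ^ k := by positivity
  set T : ℝ := g / (2 * 4 ^ k) with hT
  have hT0 : 0 < T := by positivity
  have hak : (1 / 4 : ℝ) ^ k ≤ a ^ k ^ 2 := by
    rw [sq, pow_mul]
    exact pow_le_pow_left₀ (by norm_num) (quarter k hk) k
  -- the sum of the variances
  have hvar : ∀ j : Fin k, ∑ p : B → Fin k, ((∑ l, Jn (D (e j l)) j p)
      - ∑ l, a ^ (D (e j l)).card) ^ 2 ≤ M * (g * (((k ^ 2 : ℕ) : ℝ) * r)) := by
    intro j
    apply var_bound k hk (fun l => D (e j l)) j (k ^ 2) r (hD j)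
    intro b
    refine le_trans ?_ (hr b)
    apply Finset.card_le_card_of_injOn (e j)
    · intro l hl
      simp only [Finset.coe_filter, Finset.mem_univ, true_and, Set.mem_ofPred_eq] at hl ⊢
      exact hl
    · exact (he j).injOn
  have hlow : ∀ p : B → Fin k, T ^ 2 ≤ ∑ j : Fin k, ((∑ l, Jn (D (e j l)) j p)
      - ∑ l, a ^ (D (e j l)).card) ^ 2 := by
    intro p
    obtain ⟨j, hj⟩ := hcon p
    refine le_trans ?_ (Finset.single_le_sum (f := fun j : Fin k => ((∑ l, Jn (D (e j l)) j p)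
      - ∑ l, a ^ (D (e j l)).card) ^ 2) (fun i _ => sq_nonneg _) (Finset.mem_univ j))
    have hX : ∑ l, Jn (D (e j l)) j p
        = ((univ.filter fun l : Fin g => ∀ b ∈ D (e j l), p b ≠ j).card : ℝ) := by
      unfold Jn
      rw [Finset.sum_boole]
    have hX2 : ∑ l, Jn (D (e j l)) j p < T := by
      rw [hX, hT, lt_div_iff₀ (by positivity)]
      have : ((2 * 4 ^ k * (univ.filter fun l : Fin g => ∀ b ∈ D (e j l), p b ≠ j).card : ℕ) : ℝ)
          < (g : ℝ) := by exact_mod_cast hj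
      push_cast at this
      linarith
    have hmu : 2 * T ≤ ∑ l, a ^ (D (e j l)).card := by
      have h1 : ∀ l : Fin g, (1 / 4 : ℝ) ^ k ≤ a ^ (D (e j l)).card := by
        intro l
        exact hak.trans (pow_le_pow_of_le_one ha0 ha1 (hD j l))
      have h2 := Finset.sum_le_sum fun l (_ : l ∈ (Finset.univ : Finset (Fin g))) => h1 l
      rw [Finset.sum_const, Finset.card_univ, Fintype.card_fin, nsmul_eq_mul] at h2
      refine le_trans (le_of_eq ?_) h2
      rw [hT, one_div, inv_pow]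
      field_simp
    show T ^ 2 ≤ ((∑ l, Jn (D (e j l)) j p) - ∑ l, a ^ (D (e j l)).card) ^ 2
    nlinarith
  have htot : M * T ^ 2 ≤ k * (M * (g * (((k ^ 2 : ℕ) : ℝ) * r))) := by
    calc M * T ^ 2 = ∑ _p : B → Fin k, T ^ 2 := by
          rw [Finset.sum_const, Finset.card_univ, Fintype.card_fun, Fintype.card_fin, nsmul_eq_mul]
          push_cast
          rw [hM]
      _ ≤ ∑ p : B → Fin k, ∑ j : Fin k, ((∑ l, Jn (D (e j l)) j p)
            - ∑ l, a ^ (D (e j l)).card) ^ 2 := Finset.sum_le_sum fun p _ => hlow p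
      _ = ∑ j : Fin k, ∑ p : B → Fin k, ((∑ l, Jn (D (e j l)) j p)
            - ∑ l, a ^ (D (e j l)).card) ^ 2 := Finset.sum_comm
      _ ≤ ∑ _j : Fin k, M * (g * (((k ^ 2 : ℕ) : ℝ) * r)) := Finset.sum_le_sum fun j _ => hvar j
      _ = _ := by
          rw [Finset.sum_const, Finset.card_univ, Fintype.card_fin, nsmul_eq_mul]
  have h5 : T ^ 2 ≤ k * (g * (((k ^ 2 : ℕ) : ℝ) * r)) := by
    have : M * T ^ 2 ≤ M * (k * (g * (((k ^ 2 : ℕ) : ℝ) * r))) := by
      refine htot.trans (le_of_eq ?_); ring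
    exact le_of_mul_le_mul_left this hM0
  have h6 : (g : ℝ) ^ 2 ≤ g * (4 * k ^ 3 * 16 ^ k * r) := by
    have h16 : (16 : ℝ) ^ k = (4 ^ k) ^ 2 := by
      rw [← pow_mul, mul_comm, pow_mul]; norm_num
    rw [hT, div_pow, div_le_iff₀ (by positivity)] at h5
    refine h5.trans (le_of_eq ?_)
    rw [h16]; push_cast; ring
  have h7 : (g : ℝ) ≤ 4 * k ^ 3 * 16 ^ k * r := by
    rw [sq] at h6
    exact le_of_mul_le_mul_left h6 hg0
  have h8 : ((4 * k ^ 3 * 16 ^ k * r : ℕ) : ℝ) < g := by exact_mod_cast hg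
  push_cast at h8
  linarith

end Pool.Agent.H468R2.Frag
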