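import Mathlib
import Pool.Agent.H468R2.Frag.Defs

/-!
# Discrepancy of the generalised inner product against cylinder intersections
-/

open Finset

namespace Pool.Agent.H468R2.Frag

/-- `∏_l ite (l ∈ S) c 1 = c ^ |S|`. -/
theorem gip_prod_mem (m : ℕ) (S : Finset (Fin m)) (c : ℝ) :
    (∏ l : Fin m, if l ∈ S then c else 1) = c ^ S.card := by
  rw [Finset.prod_ite_mem, Finset.univ_inter, Finset.prod_const]

/-- Averaging over one Boolean vector. -/
theorem gip_sum_one (m : ℕ) (S : Finset (Fin m)) (c : ℝ) (f : Fin m → Bool → ℝ)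
    (hf : ∀ l, l ∈ S → ∑ b, f l b = 2 * c) (hf' : ∀ l, l ∉ S → ∑ b, f l b = 2) :
    ∑ u : Fin m → Bool, ∏ l, f l (u l) = 2 ^ m * c ^ S.card := by
  have h := (Finset.prod_univ_sum (fun _ : Fin m => (univ : Finset Bool)) f).symm
  rw [Fintype.piFinset_univ] at h
  rw [h]
  have h2 : ∀ l : Fin m, ∑ b, f l b = 2 * (if l ∈ S then c else 1) := by
    intro l
    by_cases hl : l ∈ S
    · rw [hf l hl, if_pos hl]
    · rw [hf' l hl, if_neg hl, mul_one]
  rw [Finset.prod_congr rfl fun l _ => h2 l, Finset.prod_mul_distrib, gip_prod_mem,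
    Finset.prod_const, Finset.card_univ, Fintype.card_fin]

/-- Sum over pairs of Boolean vectors. -/
theorem gip_sum_pairs (m : ℕ) (S : Finset (Fin m)) (β : ℝ) :
    ∑ u : Fin m → Bool, ∑ v : Fin m → Bool, β ^ (S.filter fun l => u l ≠ v l).card
      = 4 ^ m * ((1 + β) / 2) ^ S.card := by
  have h1 : ∀ u : Fin m → Bool,
      ∑ v : Fin m → Bool, β ^ (S.filter fun l => u l ≠ v l).card
        = 2 ^ m * ((1 + β) / 2) ^ S.card := by
    intro u
    rw [← gip_sum_one m S ((1 + β) / 2)
      (fun l b => if l ∈ S then (if u l ≠ b then β else 1) else 1)]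
    · refine Finset.sum_congr rfl fun v _ => ?_
      rw [Finset.prod_ite_mem, Finset.univ_inter, Finset.prod_ite, Finset.prod_const,
        Finset.prod_const_one, mul_one]
    · intro l hl
      simp only [hl, if_true]
      cases u l <;> simp <;> ring
    · intro l hl
      simp only [hl, if_false]
      simp
  rw [Finset.sum_congr rfl fun u _ => h1 u, Finset.sum_const, Finset.card_univ, nsmul_eq_mul,
    Fintype.card_fun, Fintype.card_bool, Fintype.card_fin]
  push_cast
  rw [← mul_assoc, ← mul_pow]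
  norm_num

/-- The product of two signs. -/
theorem gip_sign_mul {m k : ℕ} (S : Finset (Fin m)) (u v : Fin m → Bool)
    (y : Fin (k + 1) → Fin m → Bool) :
    (∏ l ∈ S, if ∀ j, (Fin.cons u y : Fin (k + 2) → Fin m → Bool) j l = true
        then (-1 : ℝ) else 1) *
      (∏ l ∈ S, if ∀ j, (Fin.cons v y : Fin (k + 2) → Fin m → Bool) j l = true
        then (-1 : ℝ) else 1)
      = ∏ l ∈ S.filter fun l => u l ≠ v l, if ∀ j, y j l = true then (-1 : ℝ) else 1 := by
  rw [← Finset.prod_mul_distrib, Finset.prod_filter]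
  refine Finset.prod_congr rfl fun l _ => ?_
  simp only [Fin.forall_fin_succ (n := k + 1), Fin.cons_zero, Fin.cons_succ]
  by_cases hy : ∀ j, y j l = true
  · have e : (∀ j, y j l = true) = True := eq_true hy
    simp only [e, and_true]
    cases u l <;> cases v l <;> simp
  · have e : (∀ j, y j l = true) = False := eq_false hy
    simp only [e, and_false, if_false]
    simp

/-- Module A. -/
theorem gip_disc (m : ℕ) : ∀ (k : ℕ) (S : Finset (Fin m))
    (φ : Fin (k + 1) → (Fin (k + 1) → Fin m → Bool) → ℝ)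
    (_ : ∀ j y, |φ j y| ≤ 1)
    (_ : ∀ j y y', (∀ i, i ≠ j → y i = y' i) → φ j y = φ j y'),
    |∑ y : Fin (k + 1) → Fin m → Bool,
      (∏ l ∈ S, if ∀ j, y j l = true then (-1 : ℝ) else 1) * ∏ j, φ j y| ≤
      (2 : ℝ) ^ ((k + 1) * m) * (1 - (1 / 4 : ℝ) ^ k) ^ S.card := by
  intro k
  induction k with
  | zero =>
    intro S φ h1 h2
    set c : ℝ := φ 0 (fun _ _ => false) with hc
    have hφ : ∀ y, φ 0 y = c := by
      intro y
      exact h2 0 _ _ fun i hi => absurd (Fin.ext (by have := i.isLt; simp)) hi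
    have hs : ∑ y : Fin 1 → Fin m → Bool,
        (∏ l ∈ S, if ∀ j, y j l = true then (-1 : ℝ) else 1) * ∏ j, φ j y
        = (∑ u : Fin m → Bool, ∏ l, (if l ∈ S then (if u l = true then (-1 : ℝ) else 1) else 1))
          * c := by
      rw [Finset.sum_mul]
      refine Fintype.sum_equiv (Equiv.funUnique (Fin 1) (Fin m → Bool)) _ _ fun y => ?_
      rw [Finset.prod_ite_mem, Finset.univ_inter]
      congr 1
      · refine Finset.prod_congr rfl fun l _ => ?_
        simp [Equiv.funUnique]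
      · simp [hφ]
    have h0 := gip_sum_one m S 0
      (fun l b => if l ∈ S then (if b = true then (-1 : ℝ) else 1) else 1)
      (fun l hl => by simp [hl]) (fun l hl => by simp [hl])
    simp only [zero_add] at hs ⊢
    rw [hs, h0, abs_mul, abs_mul]
    have hc1 : |c| ≤ 1 := h1 0 _
    have hp : 0 ≤ |(2 : ℝ) ^ m| * |(0 : ℝ) ^ S.card| := by positivity
    calc |(2 : ℝ) ^ m| * |(0 : ℝ) ^ S.card| * |c| ≤ |(2 : ℝ) ^ m| * |(0 : ℝ) ^ S.card| * 1 :=
          mul_le_mul_of_nonneg_left hc1 hp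
      _ = 2 ^ (1 * m) * (1 - (1 / 4 : ℝ) ^ 0) ^ S.card := by
          rw [mul_one, one_mul, pow_zero, sub_self, abs_of_nonneg (by positivity),
            abs_of_nonneg (by positivity)]
  | succ k ih =>
    intro S φ h1 h2
    set β : ℝ := 1 - (1 / 4 : ℝ) ^ k with hβ
    have hβ0 : 0 ≤ β := by
      have : (1 / 4 : ℝ) ^ k ≤ 1 := pow_le_one₀ (by norm_num) (by norm_num)
      linarith
    -- split off the first player
    let u0 : Fin m → Bool := fun _ => false
    let sg : (Fin m → Bool) → (Fin (k + 1) → Fin m → Bool) → ℝ := fun u y =>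
      ∏ l ∈ S, if ∀ j, (Fin.cons u y : Fin (k + 2) → Fin m → Bool) j l = true
        then (-1 : ℝ) else 1
    let ps : (Fin m → Bool) → (Fin (k + 1) → Fin m → Bool) → ℝ := fun u y =>
      ∏ j : Fin (k + 1), φ j.succ (Fin.cons u y)
    let c : (Fin (k + 1) → Fin m → Bool) → ℝ := fun y => φ 0 (Fin.cons u0 y)
    let G : (Fin (k + 1) → Fin m → Bool) → ℝ := fun y => ∑ u, sg u y * ps u y
    have hT : ∑ y : Fin (k + 2) → Fin m → Bool,
        (∏ l ∈ S, if ∀ j, y j l = true then (-1 : ℝ) else 1) * ∏ j, φ j y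
        = ∑ y : Fin (k + 1) → Fin m → Bool, c y * G y := by
      have e := Fintype.sum_equiv (Fin.consEquiv fun _ : Fin (k + 2) => Fin m → Bool)
        (fun p : (Fin m → Bool) × (Fin (k + 1) → Fin m → Bool) =>
          (∏ l ∈ S, if ∀ j, (Fin.cons p.1 p.2 : Fin (k + 2) → Fin m → Bool) j l = true
            then (-1 : ℝ) else 1) * ∏ j, φ j (Fin.cons p.1 p.2))
        (fun y => (∏ l ∈ S, if ∀ j, y j l = true then (-1 : ℝ) else 1) * ∏ j, φ j y)
        (fun p => rfl)
      rw [← e, Fintype.sum_prod_type_right]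
      refine Finset.sum_congr rfl fun y _ => ?_
      simp only [G, Finset.mul_sum]
      refine Finset.sum_congr rfl fun u _ => ?_
      have hc : φ 0 (Fin.cons u y) = c y := by
        refine h2 0 _ _ fun i hi => ?_
        obtain ⟨i', rfl⟩ := Fin.exists_succ_eq.mpr hi
        simp
      rw [Fin.prod_univ_succ (n := k + 1), hc]
      simp only [sg, ps]
      ring
    have hc1 : ∀ y, c y ^ 2 ≤ 1 := by
      intro y
      have := h1 0 (Fin.cons u0 y)
      rw [← sq_abs]
      exact pow_le_one₀ (abs_nonneg _) this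
    have hcard : (∑ _y : Fin (k + 1) → Fin m → Bool, (1 : ℝ)) = 2 ^ ((k + 1) * m) := by
      rw [Finset.sum_const, Finset.card_univ, nsmul_eq_mul, mul_one, Fintype.card_fun,
        Fintype.card_fun, Fintype.card_bool, Fintype.card_fin, Fintype.card_fin]
      push_cast
      rw [← pow_mul, mul_comm m]
    have hG : ∑ y, G y ^ 2 ≤ 2 ^ ((k + 1) * m) * (4 ^ m * ((1 + β) / 2) ^ S.card) := by
      have hexp : ∑ y, G y ^ 2 = ∑ u : Fin m → Bool, ∑ v : Fin m → Bool,
          ∑ y : Fin (k + 1) → Fin m → Bool,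
            (∏ l ∈ S.filter fun l => u l ≠ v l, if ∀ j, y j l = true then (-1 : ℝ) else 1) *
              ∏ j : Fin (k + 1), (φ j.succ (Fin.cons u y) * φ j.succ (Fin.cons v y)) := by
        have : ∀ y, G y ^ 2 = ∑ u : Fin m → Bool, ∑ v : Fin m → Bool,
            (∏ l ∈ S.filter fun l => u l ≠ v l, if ∀ j, y j l = true then (-1 : ℝ) else 1) *
              ∏ j : Fin (k + 1), (φ j.succ (Fin.cons u y) * φ j.succ (Fin.cons v y)) := by
          intro y
          simp only [G, sq, Finset.sum_mul_sum]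
          refine Finset.sum_congr rfl fun u _ => Finset.sum_congr rfl fun v _ => ?_
          rw [← gip_sign_mul, Finset.prod_mul_distrib]
          simp only [sg, ps]
          ring
        rw [Finset.sum_congr rfl fun y _ => this y, Finset.sum_comm]
        refine Finset.sum_congr rfl fun u _ => ?_
        rw [Finset.sum_comm]
      rw [hexp, ← gip_sum_pairs, Finset.mul_sum]
      refine Finset.sum_le_sum fun u _ => ?_
      rw [Finset.mul_sum]
      refine Finset.sum_le_sum fun v _ => ?_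
      refine le_trans (le_abs_self _) ?_
      refine ih (S.filter fun l => u l ≠ v l)
        (fun j y => φ j.succ (Fin.cons u y) * φ j.succ (Fin.cons v y)) ?_ ?_
      · intro j y
        rw [abs_mul]
        exact mul_le_one₀ (h1 _ _) (abs_nonneg _) (h1 _ _)
      · intro j y y' hy
        have aux : ∀ w : Fin m → Bool,
            φ j.succ (Fin.cons w y) = φ j.succ (Fin.cons w y') := by
          intro w
          refine h2 j.succ _ _ fun i hi => ?_
          refine Fin.cases (by simp) (fun i' hi' => ?_) i hi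
          simp only [Fin.cons_succ]
          exact hy i' fun h => hi' (by rw [h])
        simp only [aux]
    have hCS : (∑ y, c y * G y) ^ 2 ≤ (∑ y, c y ^ 2) * ∑ y, G y ^ 2 :=
      Finset.sum_mul_sq_le_sq_mul_sq _ _ _
    have hb : (1 + β) / 2 ≤ (1 - (1 / 4 : ℝ) ^ (k + 1)) ^ 2 := by
      rw [hβ, pow_succ (1 / 4 : ℝ) k]
      nlinarith [sq_nonneg ((1 / 4 : ℝ) ^ k)]
    have hpos : (0 : ℝ) ≤ 1 - (1 / 4 : ℝ) ^ (k + 1) := by
      have : (1 / 4 : ℝ) ^ (k + 1) ≤ 1 := pow_le_one₀ (by norm_num) (by norm_num)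
      linarith
    rw [hT]
    refine abs_le_of_sq_le_sq ?_ (by positivity)
    calc (∑ y, c y * G y) ^ 2 ≤ (∑ y, c y ^ 2) * ∑ y, G y ^ 2 := hCS
      _ ≤ (∑ _y : Fin (k + 1) → Fin m → Bool, (1 : ℝ)) *
            (2 ^ ((k + 1) * m) * (4 ^ m * ((1 + β) / 2) ^ S.card)) := by
          refine mul_le_mul (Finset.sum_le_sum fun y _ => hc1 y) hG
            (Finset.sum_nonneg fun y _ => sq_nonneg _) (Finset.sum_nonneg fun y _ => zero_le_one)
      _ = (2 ^ ((k + 1 + 1) * m)) ^ 2 * ((1 + β) / 2) ^ S.card := by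
          rw [hcard]
          have : (4 : ℝ) ^ m = 2 ^ m * 2 ^ m := by rw [← mul_pow]; norm_num
          rw [this, show (k + 1 + 1) * m = (k + 1) * m + m by ring, pow_add]
          ring
      _ ≤ (2 ^ ((k + 1 + 1) * m)) ^ 2 * ((1 - (1 / 4 : ℝ) ^ (k + 1)) ^ 2) ^ S.card := by
          refine mul_le_mul_of_nonneg_left ?_ (by positivity)
          exact pow_le_pow_left₀ (by positivity) hb _
      _ = (2 ^ ((k + 1 + 1) * m) * (1 - (1 / 4 : ℝ) ^ (k + 1)) ^ S.card) ^ 2 := by
          rw [mul_pow, ← pow_mul (1 - (1 / 4 : ℝ) ^ (k + 1)), ← pow_mul (1 - (1 / 4 : ℝ) ^ (k + 1)),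
            mul_comm 2 S.card]

end Pool.Agent.H468R2.Frag
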