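import Mathlib
import Pool.Agent.H468R2.Frag.Gip

/-! # A circuit with few boundary nodes is a small union of cylinder intersections -/

open Finset

namespace Pool.Agent.H468R2.Frag

open Pool.Agent.H559R2.Sharing

variable {N q : ℕ}

lemma eval_congr {n q s : ℕ} (g : Gate n q s) (ν ν' : Src n q s → Bool)
    (h : ∀ a ∈ g.wires, ν a = ν' a) : g.eval ν = g.eval ν' := by
  cases g with
  | unary φ a =>
    have := h a (by simp [Gate.wires])
    simp [Gate.eval, this]
  | binary φ a b =>
    have h1 := h a (by simp [Gate.wires])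
    have h2 := h b (by simp [Gate.wires])
    simp [Gate.eval, h1, h2]

/-- All sources of wires. -/
def srcVal {n q s : ℕ} (x : Fin n → Bool) (a : Node q s → Bool) : Src n q s → Bool :=
  Sum.elim (Sum.elim x (fun j => a (.inl j))) (fun g => a (.inr g))

lemma srcVal_src {n q s : ℕ} (x : Fin n → Bool) (a : Node q s → Bool) (v : Node q s) :
    srcVal x a (Node.src v) = a v := by
  cases v <;> rfl

lemma srcVal_var {n q s : ℕ} (x : Fin n → Bool) (a : Node q s → Bool) (i : Fin n) :
    srcVal x a (Sum.inl (Sum.inl i)) = x i := rfl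

/-- The block `b` accepts: its gates (and guess bits) can be given values consistent with the
values `z` on the boundary. -/
def BlockOK (C : Circuit N q) {B : Type} (κ : Node q C.size → B) (b : B)
    (z : {v // v ∈ boundary C κ} → Bool) (x : Fin N → Bool) : Prop :=
  ∃ a : Node q C.size → Bool, (∀ v (h : v ∈ boundary C κ), a v = z ⟨v, h⟩) ∧
    (∀ g, κ (.inr g) = b → a (.inr g) = (C.gate g).eval (srcVal x a)) ∧
    (κ (.inr C.out) = b → a (.inr C.out) = true)

lemma blockOK_congr (C : Circuit N q) {B : Type} (κ : Node q C.size → B) (b : B)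
    (z : {v // v ∈ boundary C κ} → Bool) (x x' : Fin N → Bool)
    (h : ∀ i ∈ blockVars C κ b, x i = x' i) (hx : BlockOK C κ b z x) : BlockOK C κ b z x' := by
  obtain ⟨a, h1, h2, h3⟩ := hx
  refine ⟨a, h1, fun g hg => ?_, h3⟩
  rw [h2 g hg]
  apply eval_congr
  intro s hs
  rcases s with (i | j) | g'
  · change x i = x' i
    apply h
    simp only [blockVars, mem_filter, mem_univ, true_and]
    exact ⟨g, hg, hs⟩
  · rfl
  · rfl

lemma computes_iff (C : Circuit N q) (f : (Fin N → Bool) → Bool) (hC : C.Computes f)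
    {B : Type} (κ : Node q C.size → B) (x : Fin N → Bool) :
    f x = true ↔ ∃ z, ∀ b, BlockOK C κ b z x := by
  rw [hC x]
  constructor
  · rintro ⟨w, v, hrun, hout⟩
    let a : Node q C.size → Bool := Sum.elim w v
    refine ⟨fun u => a u.1, fun b => ⟨a, fun _ _ => rfl, fun g _ => ?_, fun _ => hout⟩⟩
    exact hrun g
  · rintro ⟨z, hz⟩
    choose a h1 h2 h3 using hz
    let A : Node q C.size → Bool := fun v => a (κ v) v
    refine ⟨fun j => A (.inl j), fun g => A (.inr g), fun g => ?_, h3 _ rfl⟩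
    have e : (Sum.elim (Sum.elim x fun j => A (.inl j)) fun g => A (.inr g)) = srcVal x A := rfl
    rw [e]
    change a (κ (.inr g)) (.inr g) = _
    rw [h2 (κ (.inr g)) g rfl]
    apply eval_congr
    intro s hs
    have key : ∀ v : Node q C.size, (Node.src v : Src N q C.size) ∈ (C.gate g).wires →
        a (κ (.inr g)) v = A v := by
      intro v hv
      by_cases hκ : κ v = κ (.inr g)
      · change _ = a (κ v) v
        rw [hκ]
      · have hb : v ∈ boundary C κ := by
          simp only [boundary, mem_filter, mem_univ, true_and]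
          exact ⟨g, hv, fun h => hκ h.symm⟩
        rw [h1 _ v hb]
        change _ = a (κ v) v
        rw [h1 _ v hb]
    rcases s with (i | j) | g'
    · rfl
    · exact key (.inl j) hs
    · exact key (.inr g') hs

lemma sign_eq {K m : ℕ} (y : Fin (K + 1) → Fin m → Bool) :
    (∏ l : Fin m, if ∀ j, y j l = true then (-1 : ℝ) else 1) =
      (-1) ^ (univ.filter fun l => ∀ j, y j l = true).card := by
  rw [← Finset.prod_filter, Finset.prod_const]

open Classical in
theorem few_boundary {N q : ℕ} (C : Circuit N q) (f : (Fin N → Bool) → Bool) (hC : C.Computes f)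
    {B : Type} [Fintype B] [DecidableEq B] (κ : Node q C.size → B) (K m : ℕ)
    (p : B → Fin (K + 1)) (ρ : (Fin (K + 1) → Fin m → Bool) → Fin N → Bool)
    (hρ : ∀ b, ∀ i ∈ blockVars C κ b, ∀ y y', (∀ j, j ≠ p b → y j = y' j) → ρ y i = ρ y' i)
    (hf : ∀ y, f (ρ y) = true ↔ Odd (univ.filter fun l => ∀ j, y j l = true).card) :
    m ≤ 4 ^ K * ((boundary C κ).card + 2) := by
  set β : ℝ := 1 - (1 / 4 : ℝ) ^ K with hβ
  set d := (boundary C κ).card with hd
  set M : ℝ := (2 : ℝ) ^ ((K + 1) * m) with hM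
  let sg : (Fin (K + 1) → Fin m → Bool) → ℝ := fun y =>
    ∏ l : Fin m, if ∀ j, y j l = true then (-1 : ℝ) else 1
  let φ : ({v // v ∈ boundary C κ} → Bool) → Fin (K + 1) →
      (Fin (K + 1) → Fin m → Bool) → ℝ :=
    fun z j y => if ∀ b, p b = j → BlockOK C κ b z (ρ y) then 1 else 0
  have hφ1 : ∀ z j y, |φ z j y| ≤ 1 := by
    intro z j y
    simp only [φ]
    split_ifs <;> simp
  have hφ2 : ∀ z j y y', (∀ i, i ≠ j → y i = y' i) → φ z j y = φ z j y' := by
    intro z j y y' h
    have : (∀ b, p b = j → BlockOK C κ b z (ρ y)) ↔ (∀ b, p b = j → BlockOK C κ b z (ρ y')) := by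
      constructor
      · intro H b hb
        refine blockOK_congr C κ b z _ _ (fun i hi => ?_) (H b hb)
        exact hρ b i hi y y' (by rw [hb]; exact h)
      · intro H b hb
        refine blockOK_congr C κ b z _ _ (fun i hi => ?_) (H b hb)
        exact (hρ b i hi y y' (by rw [hb]; exact h)).symm
    simp only [φ, this]
  have hprod : ∀ z y, (∏ j, φ z j y) = if ∀ b, BlockOK C κ b z (ρ y) then 1 else 0 := by
    intro z y
    split_ifs with h
    · apply Finset.prod_eq_one
      intro j _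
      simp only [φ]
      rw [if_pos]
      intro b _
      exact h b
    · push Not at h
      obtain ⟨b, hb⟩ := h
      apply Finset.prod_eq_zero (mem_univ (p b))
      simp only [φ]
      rw [if_neg]
      intro H
      exact hb (H b rfl)
  have hsg : ∀ y, sg y = if f (ρ y) = true then -1 else 1 := by
    intro y
    simp only [sg]
    rw [sign_eq]
    by_cases h : f (ρ y) = true
    · rw [if_pos h]
      exact Odd.neg_one_pow ((hf y).1 h)
    · rw [if_neg h]
      apply Even.neg_one_pow
      rw [← Nat.not_odd_iff_even]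
      exact fun hh => h ((hf y).2 hh)
  -- discrepancy bounds
  have hA : ∀ z, (∑ y, ∏ j, φ z j y) ≤ M * β ^ m := by
    intro z
    have h := gip_disc m K univ (φ z) (hφ1 z) (hφ2 z)
    rw [card_univ, Fintype.card_fin] at h
    refine le_trans (le_trans (le_of_eq ?_) (neg_le_abs _)) h
    rw [← Finset.sum_neg_distrib]
    apply Finset.sum_congr rfl
    intro y _
    change _ = -(sg y * _)
    rw [hsg y]
    by_cases hfy : f (ρ y) = true
    · rw [if_pos hfy]; ring
    · rw [if_neg hfy, hprod]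
      rw [if_neg]
      · simp
      · intro H
        exact hfy ((computes_iff C f hC κ (ρ y)).2 ⟨z, H⟩)
  have hB : (∑ y, sg y) ≤ M * β ^ m := by
    have h := gip_disc m K univ (fun _ _ => (1 : ℝ)) (by simp) (by simp)
    rw [card_univ, Fintype.card_fin] at h
    refine le_trans (le_trans (le_of_eq ?_) (le_abs_self _)) h
    apply Finset.sum_congr rfl
    intro y _
    simp [sg]
  have hcard : (∑ _y : Fin (K + 1) → Fin m → Bool, (1 : ℝ)) = M := by
    simp [hM, Fintype.card_pi, mul_comm, pow_mul]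
  -- counting
  have hC1 : ∑ y, (1 - sg y) / 2 ≤ ∑ y, ∑ z, ∏ j, φ z j y := by
    apply Finset.sum_le_sum
    intro y _
    rw [hsg y]
    have hnn : ∀ z, 0 ≤ ∏ j, φ z j y := by
      intro z
      rw [hprod]
      split_ifs <;> norm_num
    by_cases hfy : f (ρ y) = true
    · rw [if_pos hfy]
      obtain ⟨z, hz⟩ := (computes_iff C f hC κ (ρ y)).1 hfy
      have : (1 : ℝ) = ∏ j, φ z j y := by
        rw [hprod, if_pos hz]
      calc (1 - (-1 : ℝ)) / 2 = ∏ j, φ z j y := by rw [← this]; norm_num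
        _ ≤ _ := Finset.single_le_sum (f := fun z => ∏ j, φ z j y) (fun z _ => hnn z) (mem_univ z)
    · rw [if_neg hfy]
      simp only [sub_self, zero_div]
      exact Finset.sum_nonneg fun z _ => hnn z
  rw [Finset.sum_comm] at hC1
  have hC2 : ∑ z, ∑ y, ∏ j, φ z j y ≤ 2 ^ d * (M * β ^ m) := by
    refine le_trans (Finset.sum_le_sum (fun z _ => hA z)) ?_
    rw [Finset.sum_const, nsmul_eq_mul]
    simp [Fintype.card_pi, hd]
  have hC3 : ∑ y, (1 - sg y) / 2 = (M - ∑ y, sg y) / 2 := by
    rw [← Finset.sum_div, Finset.sum_sub_distrib, hcard]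
  have hMpos : 0 < M := by positivity
  have hβ0 : 0 ≤ β := by
    rw [hβ, sub_nonneg]
    exact pow_le_one₀ (by norm_num) (by norm_num)
  have hmain : (1 : ℝ) ≤ 2 ^ (d + 2) * β ^ m := by
    have h1 : (M - M * β ^ m) / 2 ≤ 2 ^ d * (M * β ^ m) := by
      calc (M - M * β ^ m) / 2 ≤ (M - ∑ y, sg y) / 2 := by linarith
        _ = ∑ y, (1 - sg y) / 2 := hC3.symm
        _ ≤ _ := hC1
        _ ≤ _ := hC2
    have h2 : M * 1 ≤ M * ((2 * 2 ^ d + 1) * β ^ m) := by nlinarith
    have h3 := le_of_mul_le_mul_left h2 hMpos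
    have h4 : (2 * 2 ^ d + 1 : ℝ) ≤ 2 ^ (d + 2) := by
      rw [pow_add]
      have : (1 : ℝ) ≤ 2 ^ d := one_le_pow₀ (by norm_num)
      nlinarith
    exact h3.trans (mul_le_mul_of_nonneg_right h4 (by positivity))
  have hexp : β ^ m ≤ Real.exp (-((m : ℝ) * (1 / 4) ^ K)) := by
    have h1 : β ≤ Real.exp (-((1 / 4 : ℝ) ^ K)) := by
      rw [hβ]
      exact Real.one_sub_le_exp_neg _
    calc β ^ m ≤ (Real.exp (-((1 / 4 : ℝ) ^ K))) ^ m := pow_le_pow_left₀ hβ0 h1 m
      _ = _ := by rw [← Real.exp_nat_mul]; congr 1; ring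
  have h5 : Real.exp ((m : ℝ) * (1 / 4) ^ K) ≤ Real.exp ((d + 2 : ℕ) : ℝ) := by
    have h6 : (1 : ℝ) ≤ 2 ^ (d + 2) * Real.exp (-((m : ℝ) * (1 / 4) ^ K)) :=
      hmain.trans (mul_le_mul_of_nonneg_left hexp (by positivity))
    rw [Real.exp_neg] at h6
    have hpos := Real.exp_pos ((m : ℝ) * (1 / 4) ^ K)
    have h7 : Real.exp ((m : ℝ) * (1 / 4) ^ K) ≤ 2 ^ (d + 2) := by
      have := mul_le_mul_of_nonneg_right h6 hpos.le
      rw [one_mul, mul_assoc, inv_mul_cancel₀ hpos.ne', mul_one] at this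
      exact this
    refine h7.trans ?_
    rw [← Real.exp_one_pow]
    apply pow_le_pow_left₀ (by norm_num)
    have := Real.add_one_le_exp (1 : ℝ)
    linarith
  have h6 := Real.exp_le_exp.1 h5
  have h7 : (m : ℝ) ≤ 4 ^ K * ((d : ℝ) + 2) := by
    have h8 : ((1 : ℝ) / 4) ^ K = 1 / 4 ^ K := by rw [div_pow, one_pow]
    rw [h8, mul_one_div, div_le_iff₀ (by positivity)] at h6
    push_cast at h6
    linarith
  exact_mod_cast h7

end Pool.Agent.H468R2.Frag
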