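import Mathlib
import Pool.Agent.H468R2.Frag.Defs

/-! Module D: restricting the explicit function to a generalised inner product. -/

open Finset

namespace Pool.Agent.H468R2.Frag

private lemma length_filter_range (n : ℕ) (f : ℕ → Bool) :
    ((List.range n).filter f).length = ((Finset.range n).filter fun i => f i = true).card := by
  rw [Finset.card_def, Finset.filter_val, Finset.range_val, ← Multiset.coe_range,
    Multiset.filter_coe, Multiset.coe_card]
  simp

/-- Module D. -/
theorem word_restrict (N K m : ℕ) (W : Fin (K + 1) → Fin m → ℕ) (sp : Fin K → ℕ)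
    (hW : ∀ j l, W j l < N / 2) (hsp : ∀ i, sp i < N / 2)
    (hmono : ∀ j, StrictMono (W j)) (hspm : StrictMono sp)
    (h1 : ∀ (j : Fin (K + 1)) (l : Fin m) (i : Fin K), (i : ℕ) < (j : ℕ) → sp i < W j l)
    (h2 : ∀ (j : Fin (K + 1)) (l : Fin m) (i : Fin K), (j : ℕ) ≤ (i : ℕ) → W j l < sp i) :
    ∃ ρ : (Fin (K + 1) → Fin m → Bool) → Fin N → Bool,
      (∀ y, gipFun N (ρ y) = true ↔ Odd (univ.filter fun l => ∀ j, y j l = true).card) ∧
      (∀ (i : Fin N) y y', (∀ j l, (i : ℕ) = N / 2 + W j l → y j l = y' j l) → ρ y i = ρ y' i) := by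
  classical
  -- the words are disjoint
  have hne : ∀ j l i, sp i ≠ W j l := by
    intro j l i h
    rcases lt_or_ge (i : ℕ) (j : ℕ) with hij | hij
    · exact absurd h (h1 j l i hij).ne
    · exact absurd h (h2 j l i hij).ne'
  have hjj : ∀ (j j' : Fin (K + 1)) (l l' : Fin m), (j : ℕ) < (j' : ℕ) → W j l < W j' l' := by
    intro j j' l l' hlt
    have hj : (j : ℕ) < K := by omega
    exact (h2 j l ⟨j, hj⟩ le_rfl).trans (h1 j' l' ⟨j, hj⟩ hlt)
  have hinj : ∀ j j' l l', W j l = W j' l' → j = j' ∧ l = l' := by
    intro j j' l l' h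
    rcases lt_trichotomy (j : ℕ) (j' : ℕ) with hlt | heq | hlt
    · exact absurd h (hjj _ _ _ _ hlt).ne
    · have : j = j' := Fin.ext heq
      subst this
      exact ⟨rfl, (hmono j).injective h⟩
    · exact absurd h (hjj _ _ _ _ hlt).ne'
  let ρ : (Fin (K + 1) → Fin m → Bool) → Fin N → Bool := fun y i =>
    if (i : ℕ) < N / 2 then !decide (∃ j l, (i : ℕ) = W j l)
    else decide (∃ j l, (i : ℕ) = N / 2 + W j l ∧ y j l = true) ||
      decide (∃ i', (i : ℕ) = N / 2 + sp i')
  refine ⟨ρ, ?_, ?_⟩
  · intro y
    set x := ρ y with hx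
    have hbit1 : ∀ p, p < N / 2 → bit x p = !decide (∃ j l, p = W j l) := by
      intro p hp
      have hpN : p < N := by omega
      simp only [bit, hpN, dif_pos, hx, ρ, hp, if_true]
    have hbit2 : ∀ p, p < N / 2 → bit x (N / 2 + p) =
        (decide (∃ j l, p = W j l ∧ y j l = true) || decide (∃ i', p = sp i')) := by
      intro p hp
      have hpN : N / 2 + p < N := by omega
      have hnot : ¬ (N / 2 + p < N / 2) := by omega
      simp only [bit, hpN, dif_pos, hx, ρ, hnot, if_false, Nat.add_left_cancel_iff]
    have hsep : ∀ p, p < N / 2 → sepAt x p = decide (∃ i', p = sp i') := by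
      intro p hp
      rw [sepAt, hbit1 p hp, hbit2 p hp, Bool.eq_iff_iff]
      simp only [Bool.and_eq_true, Bool.not_eq_true', decide_eq_false_iff_not, Bool.or_eq_true,
        decide_eq_true_eq]
      constructor
      · rintro ⟨h, ⟨j, l, h', -⟩ | h'⟩
        · exact absurd ⟨j, l, h'⟩ h
        · exact h'
      · rintro ⟨i', hi'⟩
        refine ⟨?_, Or.inr ⟨i', hi'⟩⟩
        rintro ⟨j, l, hjl⟩
        exact hne j l i' (hi'.symm.trans hjl)
    have hact : ∀ p, p < N / 2 → actAt x p = decide (∃ j l, p = W j l) := by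
      intro p hp
      rw [actAt, hbit1 p hp, Bool.not_not]
    have hcls : ∀ p, p ≤ N / 2 → cls x p = (univ.filter fun i => sp i < p).card := by
      intro p hp
      rw [cls, length_filter_range]
      symm
      apply Finset.card_bij (fun i _ => sp i)
      · intro i hi
        have hi' := (Finset.mem_filter.1 hi).2
        refine Finset.mem_filter.2 ⟨Finset.mem_range.2 hi', ?_⟩
        rw [hsep _ (hsp i)]
        exact decide_eq_true ⟨i, rfl⟩
      · intro i _ i' _ h
        exact hspm.injective h
      · intro q hq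
        have hq1 := Finset.mem_range.1 (Finset.mem_filter.1 hq).1
        have hq2 := (Finset.mem_filter.1 hq).2
        rw [hsep q (by omega)] at hq2
        obtain ⟨i, hi⟩ := of_decide_eq_true hq2
        exact ⟨i, Finset.mem_filter.2 ⟨Finset.mem_univ _, hi ▸ hq1⟩, hi.symm⟩
    have hclsW : ∀ j l, cls x (W j l) = (j : ℕ) := by
      intro j l
      rw [hcls _ (hW j l).le]
      have : (univ.filter fun i => sp i < W j l) = univ.filter fun i : Fin K => (i : ℕ) < (j : ℕ) := by
        apply Finset.filter_congr
        intro i _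
        constructor
        · intro h
          by_contra hcon
          exact absurd h (not_lt.2 (h2 j l i (not_lt.1 hcon)).le)
        · intro h
          exact h1 j l i h
      rw [this]
      have hj : (j : ℕ) ≤ K := by omega
      have : (univ.filter fun i : Fin K => (i : ℕ) < (j : ℕ)).card = (Finset.range (j : ℕ)).card := by
        apply Finset.card_bij (fun (i : Fin K) _ => (i : ℕ))
        · intro i hi
          exact Finset.mem_range.2 (Finset.mem_filter.1 hi).2
        · intro i _ i' _ h
          exact Fin.ext h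
        · intro q hq
          have := Finset.mem_range.1 hq
          exact ⟨⟨q, by omega⟩, Finset.mem_filter.2 ⟨Finset.mem_univ _, this⟩, rfl⟩
      rw [this, Finset.card_range]
    have hclsN : cls x (N / 2) = K := by
      rw [hcls _ le_rfl, Finset.filter_true_of_mem (fun i _ => hsp i), Finset.card_univ,
        Fintype.card_fin]
    have hrnk : ∀ j l, rnk x (W j l) = (l : ℕ) := by
      intro j l
      rw [rnk, length_filter_range]
      have : (l : ℕ) = (Finset.range (l : ℕ)).card := by rw [Finset.card_range]
      rw [this]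
      symm
      apply Finset.card_bij (fun q hq => W j ⟨q, (Finset.mem_range.1 hq).trans l.2⟩)
      · intro q hq
        refine Finset.mem_filter.2 ⟨Finset.mem_range.2 (hmono j (Finset.mem_range.1 hq)), ?_⟩
        rw [Bool.and_eq_true, decide_eq_true_eq, hclsW, hclsW, hact _ (hW j _)]
        exact ⟨decide_eq_true ⟨j, _, rfl⟩, rfl⟩
      · intro q _ q' _ h
        exact congrArg Fin.val ((hmono j).injective h)
      · intro q hq
        have hq1 := Finset.mem_range.1 (Finset.mem_filter.1 hq).1
        have hq2 := (Finset.mem_filter.1 hq).2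
        have hqN : q < N / 2 := hq1.trans (hW j l)
        rw [Bool.and_eq_true, decide_eq_true_eq, hact q hqN] at hq2
        obtain ⟨j', l', hjl⟩ := of_decide_eq_true hq2.1
        have hc := hq2.2
        rw [hjl, hclsW, hclsW] at hc
        have hjj' : j' = j := Fin.ext hc
        subst hjj'
        rw [hjl] at hq1
        have hl : l' < l := (hmono j').lt_iff_lt.1 hq1
        exact ⟨(l' : ℕ), Finset.mem_range.2 hl, hjl.symm⟩
    have hcol : ∀ l', colAll x l' = true ↔ ∀ j, ∃ l : Fin m, (l : ℕ) = l' ∧ y j l = true := by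
      intro l'
      rw [colAll, List.all_eq_true, hclsN]
      constructor
      · intro h j
        have hj := h (j : ℕ) (List.mem_range.2 j.2)
        rw [List.any_eq_true] at hj
        obtain ⟨p, hp, hpp⟩ := hj
        have hpN := List.mem_range.1 hp
        simp only [Bool.and_eq_true, decide_eq_true_eq] at hpp
        obtain ⟨⟨⟨ha, hc⟩, hr⟩, hb⟩ := hpp
        rw [hact p hpN] at ha
        obtain ⟨j', l, hjl⟩ := of_decide_eq_true ha
        rw [hjl, hclsW] at hc
        rw [hjl, hrnk] at hr
        have hjj' : j' = j := Fin.ext hc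
        subst hjj'
        refine ⟨l, hr, ?_⟩
        rw [hbit2 p hpN, Bool.or_eq_true, decide_eq_true_eq, decide_eq_true_eq] at hb
        rcases hb with ⟨j'', l'', h, hy⟩ | ⟨i', hi'⟩
        · obtain ⟨e1, e2⟩ := hinj _ _ _ _ (hjl.symm.trans h)
          rw [e1, e2]
          exact hy
        · exact absurd (hi'.symm.trans hjl) (hne _ _ _)
      · intro h j hj
        rw [List.any_eq_true]
        obtain ⟨l, hl, hy⟩ := h ⟨j, List.mem_range.1 hj⟩
        refine ⟨W ⟨j, List.mem_range.1 hj⟩ l, List.mem_range.2 (hW _ _), ?_⟩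
        simp only [Bool.and_eq_true, decide_eq_true_eq]
        refine ⟨⟨⟨?_, ?_⟩, ?_⟩, ?_⟩
        · rw [hact _ (hW _ _)]
          exact decide_eq_true ⟨_, _, rfl⟩
        · rw [hclsW]
        · rw [hrnk, hl]
        · rw [hbit2 _ (hW _ _), Bool.or_eq_true]
          exact Or.inl (decide_eq_true ⟨_, _, rfl, hy⟩)
    have hm : m ≤ N / 2 := by
      have : Function.Injective (fun l : Fin m => (⟨W 0 l, hW 0 l⟩ : Fin (N / 2))) := by
        intro l l' h
        exact (hmono 0).injective (congrArg Fin.val h)
      simpa using Fintype.card_le_of_injective _ this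
    rw [gipFun, decide_eq_true_eq, length_filter_range]
    have hcard : ((Finset.range (N / 2)).filter fun i => colAll x i = true).card =
        (univ.filter fun l : Fin m => ∀ j, y j l = true).card := by
      symm
      apply Finset.card_bij (fun (l : Fin m) _ => (l : ℕ))
      · intro l hl
        refine Finset.mem_filter.2 ⟨Finset.mem_range.2 (l.2.trans_le hm), ?_⟩
        rw [hcol]
        intro j
        exact ⟨l, rfl, (Finset.mem_filter.1 hl).2 j⟩
      · intro l _ l' _ h
        exact Fin.ext h
      · intro q hq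
        have hq2 := (hcol q).1 (Finset.mem_filter.1 hq).2
        obtain ⟨l, hl, -⟩ := hq2 0
        refine ⟨l, Finset.mem_filter.2 ⟨Finset.mem_univ _, ?_⟩, hl⟩
        intro j
        obtain ⟨l2, hl2, hy⟩ := hq2 j
        have : l2 = l := Fin.ext (hl2.trans hl.symm)
        rw [← this]
        exact hy
    rw [hcard]
  · intro i y y' h
    simp only [ρ]
    have : (∃ j l, (i : ℕ) = N / 2 + W j l ∧ y j l = true) ↔
        (∃ j l, (i : ℕ) = N / 2 + W j l ∧ y' j l = true) := by
      constructor
      · rintro ⟨j, l, hi, hy⟩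
        exact ⟨j, l, hi, (h j l hi) ▸ hy⟩
      · rintro ⟨j, l, hi, hy⟩
        exact ⟨j, l, hi, (h j l hi).symm ▸ hy⟩
    simp only [this]

end Pool.Agent.H468R2.Frag
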