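import Mathlib
import Pool.Agent.H468R2.Frag.Rect
import Pool.Agent.H468R2.Frag.Choose
import Pool.Agent.H468R2.Frag.Word

/-! # The bound for partitions of the gates -/

open Finset

namespace Pool.Agent.H468R2.Frag

open Pool.Agent.H559R2.Sharing

variable {N q : ℕ}

open Classical in
lemma card_reads_le (C : Circuit N q) (g : Fin C.size) :
    (univ.filter fun i => ReadsVar C i g).card ≤ 2 := by
  have h1 : (univ.filter fun i => ReadsVar C i g).card ≤ (C.gate g).wires.toFinset.card := by
    apply card_le_card_of_injOn (fun i => (Sum.inl (Sum.inl i) : Src N q C.size))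
    · intro i hi
      have hi' := (mem_filter.1 (mem_coe.1 hi)).2
      exact mem_coe.2 (List.mem_toFinset.2 hi')
    · intro i _ j _ h
      simpa using h
  refine h1.trans ((List.toFinset_card_le _).trans ?_)
  cases C.gate g <;> simp [Gate.wires]

open Classical in
lemma card_feeds_le (C : Circuit N q) (g : Fin C.size) :
    (univ.filter fun v => Feeds C v g).card ≤ 2 := by
  have h1 : (univ.filter fun v => Feeds C v g).card ≤ (C.gate g).wires.toFinset.card := by
    apply card_le_card_of_injOn (fun v => (Node.src v : Src N q C.size))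
    · intro i hi
      have hi' := (mem_filter.1 (mem_coe.1 hi)).2
      exact mem_coe.2 (List.mem_toFinset.2 hi')
    · intro i _ j _ h
      cases i <;> cases j <;> simp_all [Node.src]
  refine h1.trans ((List.toFinset_card_le _).trans ?_)
  cases C.gate g <;> simp [Gate.wires]

/-- The total number of pairs (block, variable read by it) is at most twice the size. -/
lemma sum_blockVars_le (C : Circuit N q) {B : Type} [Fintype B] [DecidableEq B]
    (κ : Node q C.size → B) : ∑ b, (blockVars C κ b).card ≤ 2 * C.size := by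
  classical
  have h1 : ∀ b, (blockVars C κ b).card ≤
      ∑ g ∈ univ.filter (fun g => κ (.inr g) = b), (univ.filter fun i => ReadsVar C i g).card := by
    intro b
    refine le_trans (card_le_card ?_) card_biUnion_le
    intro i hi
    simp only [blockVars, mem_filter, mem_univ, true_and] at hi
    obtain ⟨g, h1, h2⟩ := hi
    simp only [mem_biUnion, mem_filter, mem_univ, true_and]
    exact ⟨g, h1, h2⟩
  calc ∑ b, (blockVars C κ b).card
      ≤ ∑ b, ∑ g ∈ univ.filter (fun g => κ (.inr g) = b),
        (univ.filter fun i => ReadsVar C i g).card := sum_le_sum fun b _ => h1 b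
    _ = ∑ g, (univ.filter fun i => ReadsVar C i g).card := by
        rw [← sum_fiberwise (s := univ) (g := fun g => κ (.inr g))]
    _ ≤ ∑ _g : Fin C.size, 2 := sum_le_sum fun g _ => card_reads_le C g
    _ = 2 * C.size := by simp [mul_comm]

/-- The index of the data bit of position `p`. -/
def dataIx (N : ℕ) (p : Fin (N / 2)) : Fin N := ⟨N / 2 + p, by omega⟩

lemma dataIx_inj (N : ℕ) : Function.Injective (dataIx N) := by
  intro a b h
  simp only [dataIx, Fin.mk.injEq] at h
  exact Fin.ext (by omega)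

open Classical in
theorem partition_bound (C : Circuit N q) (hC : C.Computes (gipFun N)) {B : Type} [Fintype B]
    [DecidableEq B] (κ : Node q C.size → B) (r K : ℕ) (hK : 1 ≤ K)
    (hr : ∀ b, (blockVars C κ b).card ≤ r) (hs : 4 * C.size ≤ (K + 1) ^ 2 * (N / 2)) :
    N ≤ 2 ^ (13 * (K + 1)) * ((boundary C κ).card + r + 1) := by
  set k := K + 1 with hk
  set d := (boundary C κ).card with hd
  let D : Fin (N / 2) → Finset B := fun i => univ.filter fun b => dataIx N i ∈ blockVars C κ b
  -- positions with few blocks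
  have hsumD : ∑ i, (D i).card ≤ 2 * C.size := by
    refine le_trans ?_ (sum_blockVars_le C κ)
    have e1 : ∑ i, (D i).card = ∑ b, (univ.filter fun i => dataIx N i ∈ blockVars C κ b).card := by
      simp only [D, card_filter]
      exact sum_comm
    rw [e1]
    refine sum_le_sum fun b _ => ?_
    apply card_le_card_of_injOn (dataIx N)
    · intro i hi
      simpa using hi
    · intro i _ j _ h
      exact dataIx_inj N h
  let G : Finset (Fin (N / 2)) := univ.filter fun i => (D i).card ≤ k ^ 2
  have hGc : (univ.filter fun i => ¬ (D i).card ≤ k ^ 2).card * (k ^ 2 + 1) ≤ 2 * C.size := by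
    refine le_trans ?_ hsumD
    rw [← smul_eq_mul, ← sum_const]
    refine le_trans (sum_le_sum (g := fun i => (D i).card) ?_) (sum_le_univ_sum_of_nonneg ?_)
    · intro i hi
      simp only [mem_filter, mem_univ, true_and, not_le] at hi
      exact hi
    · intro i; exact Nat.zero_le _
  have hGG : G.card + (univ.filter fun i => ¬ (D i).card ≤ k ^ 2).card = N / 2 := by
    rw [card_filter_add_card_filter_not]
    simp
  have hG : N / 2 ≤ 2 * G.card := by
    by_contra hcon
    push Not at hcon
    set gc := (univ.filter fun i => ¬ (D i).card ≤ k ^ 2).card with hgc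
    have h1 : N / 2 < 2 * gc := by omega
    have h2 : 2 * (gc * (k ^ 2 + 1)) ≤ k ^ 2 * (N / 2) := by omega
    have h3 : k ^ 2 * (N / 2) ≤ k ^ 2 * (2 * gc) := Nat.mul_le_mul_left _ h1.le
    have h4 : 2 * (gc * (k ^ 2 + 1)) = k ^ 2 * (2 * gc) + 2 * gc := by ring
    omega
  -- the size of the classes
  set g := G.card / k - 1 with hg
  have hk0 : 0 < k := by omega
  have hgG : G.card ≤ k * (g + 2) := by
    have h1 := Nat.lt_div_mul_add (a := G.card) hk0
    have h2 : G.card / k ≤ g + 1 := by omega
    have h3 : G.card / k * k ≤ (g + 1) * k := Nat.mul_le_mul_right _ h2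
    nlinarith
  -- it suffices to bound `g`
  suffices hgb : g ≤ 4 * k ^ 3 * 16 ^ k * (d + r + 2) by
    have hkk : k ≤ 2 ^ k := (Nat.lt_two_pow_self).le
    have e1 : N ≤ 4 * (k * (g + 2)) + 1 := by omega
    have hk4 : k ^ 4 ≤ 2 ^ (4 * k) := by
      calc k ^ 4 ≤ (2 ^ k) ^ 4 := Nat.pow_le_pow_left hkk 4
        _ = 2 ^ (4 * k) := by rw [← pow_mul, mul_comm]
    have h16 : 16 ^ k = 2 ^ (4 * k) := by
      rw [show (16 : ℕ) = 2 ^ 4 by norm_num, ← pow_mul]
    have e2 : k * (g + 2) ≤ 4 * k ^ 4 * 16 ^ k * (d + r + 2) + 2 * k := by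
      calc k * (g + 2) ≤ k * (4 * k ^ 3 * 16 ^ k * (d + r + 2) + 2) :=
            Nat.mul_le_mul_left _ (by omega)
        _ = _ := by ring
    have e3 : 4 * k ^ 4 * 16 ^ k * (d + r + 2) ≤ 2 ^ (8 * k + 2) * (d + r + 2) := by
      apply Nat.mul_le_mul_right
      calc 4 * k ^ 4 * 16 ^ k ≤ 4 * 2 ^ (4 * k) * 2 ^ (4 * k) := by
            rw [h16]; gcongr
        _ = 2 ^ (8 * k + 2) := by rw [show 8 * k + 2 = 2 + 4 * k + 4 * k by ring, pow_add, pow_add]; norm_num
    have e4 : 2 ^ (8 * k + 2) * (d + r + 2) ≤ 2 ^ (8 * k + 3) * (d + r + 1) := by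
      rw [show 8 * k + 3 = (8 * k + 2) + 1 by ring, pow_succ 2 (8 * k + 2), mul_assoc]
      apply Nat.mul_le_mul_left
      omega
    have e5 : 8 * k + 1 ≤ 2 ^ (8 * k + 3) * (d + r + 1) := by
      have : 8 * k + 3 < 2 ^ (8 * k + 3) := Nat.lt_two_pow_self
      nlinarith
    calc N ≤ 4 * (2 ^ (8 * k + 3) * (d + r + 1)) + (8 * k + 1) := by omega
      _ ≤ 8 * (2 ^ (8 * k + 3) * (d + r + 1)) := by omega
      _ = 2 ^ (8 * k + 6) * (d + r + 1) := by
          rw [show 8 * k + 6 = (8 * k + 3) + 3 by ring, pow_add 2 (8 * k + 3) 3]; ring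
      _ ≤ 2 ^ (13 * k) * (d + r + 1) := by
          apply Nat.mul_le_mul_right
          apply Nat.pow_le_pow_right (by norm_num)
          omega
  by_cases hcase : g ≤ 4 * k ^ 3 * 16 ^ k * r
  · refine hcase.trans (Nat.mul_le_mul_left _ (by omega))
  push Not at hcase
  -- the candidate positions
  have hidx : ∀ (j : Fin k) (l : ℕ), l < g + 1 → (j : ℕ) * (g + 1) + l < G.card := by
    intro j l hl
    have hg1 : g + 1 = G.card / k := by
      have : 0 < G.card / k := by
        by_contra hh
        have : g = 0 := by omega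
        omega
      omega
    have h2 : (g + 1) * k ≤ G.card := by rw [hg1]; exact Nat.div_mul_le_self _ _
    have h3 : ((j : ℕ) + 1) * (g + 1) ≤ k * (g + 1) := Nat.mul_le_mul_right _ j.2
    nlinarith
  let emb : Fin G.card ↪o Fin (N / 2) := G.orderEmbOfFin rfl
  let e : Fin k → Fin g → Fin (N / 2) := fun j l =>
    emb ⟨(j : ℕ) * (g + 1) + l, hidx j l (by omega)⟩
  let sp : Fin K → ℕ := fun i => (emb ⟨(i : ℕ) * (g + 1) + g,
    hidx ⟨i, by omega⟩ g (by omega)⟩ : Fin (N / 2))
  have he : ∀ j, Function.Injective (e j) := by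
    intro j l l' h
    have := emb.injective h
    simp only [Fin.mk.injEq] at this
    exact Fin.ext (by omega)
  have hmemG : ∀ i, emb i ∈ G := fun i => G.orderEmbOfFin_mem rfl i
  have hDe : ∀ j l, (D (e j l)).card ≤ k ^ 2 := by
    intro j l
    have := hmemG ⟨(j : ℕ) * (g + 1) + l, hidx j l (by omega)⟩
    simp only [G, mem_filter, mem_univ, true_and] at this
    exact this
  have hrD : ∀ b, (univ.filter fun i => b ∈ D i).card ≤ r := by
    intro b
    refine le_trans ?_ (hr b)
    apply card_le_card_of_injOn (dataIx N)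
    · intro i hi
      simpa [D] using hi
    · intro i _ j _ h
      exact dataIx_inj N h
  obtain ⟨p, hp⟩ := choose_players D k g r (by omega) e he hDe hrD hcase
  -- the smallest number of columns
  obtain ⟨j0, -, hj0⟩ := exists_mem_eq_inf' (s := (univ : Finset (Fin k))) ⟨⟨0, hk0⟩, mem_univ _⟩
    (fun j => (univ.filter fun l : Fin g => ∀ b ∈ D (e j l), p b ≠ j).card)
  set m := (univ : Finset (Fin k)).inf' ⟨⟨0, hk0⟩, mem_univ _⟩
    (fun j => (univ.filter fun l : Fin g => ∀ b ∈ D (e j l), p b ≠ j).card) with hm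
  have hgm : g ≤ 2 * 4 ^ k * m := by rw [hj0]; exact hp j0
  have hmj : ∀ j, m ≤ (univ.filter fun l : Fin g => ∀ b ∈ D (e j l), p b ≠ j).card :=
    fun j => inf'_le _ (mem_univ j)
  choose U hU1 hU2 using fun j => exists_subset_card_eq (hmj j)
  let o : ∀ j, Fin m ↪o Fin g := fun j => (U j).orderEmbOfFin (hU2 j)
  have ho : ∀ j l, ∀ b ∈ D (e j (o j l)), p b ≠ j := by
    intro j l
    have h1 : o j l ∈ U j := (U j).orderEmbOfFin_mem (hU2 j) l
    have h2 := hU1 j h1
    simp only [mem_filter, mem_univ, true_and] at h2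
    exact h2
  let W : Fin (K + 1) → Fin m → ℕ := fun j l => (e j (o j l) : Fin (N / 2))
  obtain ⟨ρ, hρ1, hρ2⟩ := word_restrict N K m W sp (fun j l => (e j (o j l)).2) (fun i => Fin.is_lt _)
    (by
      intro j l l' hl
      have h1 : o j l < o j l' := (o j).strictMono hl
      simp only [W, e]
      have h3 : (⟨(j : ℕ) * (g + 1) + (o j l : Fin g), hidx j _ (by omega)⟩ : Fin G.card) <
          ⟨(j : ℕ) * (g + 1) + (o j l' : Fin g), hidx j _ (by omega)⟩ := by
        rw [Fin.mk_lt_mk]
        have : ((o j l : Fin g) : ℕ) < (o j l' : Fin g) := h1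
        omega
      exact emb.strictMono h3)
    (by
      intro i i' hi
      simp only [sp]
      apply emb.strictMono
      rw [Fin.mk_lt_mk]
      have : (i : ℕ) < i' := hi
      nlinarith)
    (by
      intro j l i hij
      simp only [sp, W, e]
      apply emb.strictMono
      rw [Fin.mk_lt_mk]
      nlinarith)
    (by
      intro j l i hij
      simp only [sp, W, e]
      apply emb.strictMono
      rw [Fin.mk_lt_mk]
      have := (o j l).2
      nlinarith)
  have hfb := few_boundary C (gipFun N) hC κ K m p ρ (by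
    intro b i hi y y' hyy
    apply hρ2
    intro j l hil
    by_cases hj : j = p b
    · exfalso
      apply ho j l b _ hj.symm
      simp only [D, mem_filter, mem_univ, true_and]
      have : i = dataIx N (e j (o j l)) := Fin.ext (by simpa [dataIx, W] using hil)
      rw [← this]
      exact hi
    · rw [hyy j hj]) hρ1
  have h4 : (4 : ℕ) ^ k * 4 ^ K ≤ 16 ^ k := by
    calc (4 : ℕ) ^ k * 4 ^ K ≤ 4 ^ k * 4 ^ k := Nat.mul_le_mul_left _ (Nat.pow_le_pow_right (by norm_num) (by omega))
      _ = 16 ^ k := by rw [← mul_pow]; norm_num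
  have hk3 : 1 ≤ k ^ 3 := Nat.one_le_pow _ _ hk0
  calc g ≤ 2 * 4 ^ k * m := hgm
    _ ≤ 2 * 4 ^ k * (4 ^ K * (d + 2)) := Nat.mul_le_mul_left _ hfb
    _ = 2 * (4 ^ k * 4 ^ K) * (d + 2) := by ring
    _ ≤ 2 * 16 ^ k * (d + 2) := Nat.mul_le_mul_right _ (Nat.mul_le_mul_left _ h4)
    _ ≤ 4 * k ^ 3 * 16 ^ k * (d + r + 2) := by
        apply Nat.mul_le_mul _ (by omega)
        apply Nat.mul_le_mul_right
        omega

end Pool.Agent.H468R2.Frag
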