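import Mathlib
import Pool.Agent.H468R2.Frag.Defs

/-! # Separators give a fragmentation -/

open Finset

namespace Pool.Agent.H468R2.Frag

lemma fragment_aux {V : Type} [Fintype V] [DecidableEq V] (adj : V → V → Prop) (w a : ℕ)
    (ha : 1 ≤ a) (Wt : Finset V)
    (hsep : ∀ A : Finset V, ∃ (S : Finset V) (side : V → Bool), S ⊆ A ∧ S.card ≤ w ∧
      (∀ u v, u ∈ A → v ∈ A → u ∉ S → v ∉ S → adj u v → side u = side v) ∧
      (∀ c, 3 * ((A ∩ Wt).filter fun v => v ∉ S ∧ side v = c).card ≤ 2 * (A ∩ Wt).card)) :
    ∀ (n : ℕ) (A : Finset V), (A ∩ Wt).card = n →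
    ∃ (X : Finset V) (κ : V → V), X ⊆ A ∧ a * X.card ≤ w * (3 * n - a) ∧
      (∀ v, v ∈ A → v ∉ X → κ v ∈ A ∧ κ v ∉ X) ∧
      (∀ u v, u ∈ A → v ∈ A → u ∉ X → v ∉ X → adj u v → κ u = κ v) ∧
      (∀ c, ((A ∩ Wt).filter fun v => v ∉ X ∧ κ v = c).card ≤ a) := by
  intro n
  induction n using Nat.strong_induction_on with
  | _ n ih =>
  intro A hA
  by_cases hn : n ≤ a
  · rcases A.eq_empty_or_nonempty with h0 | ⟨v0, hv0⟩
    · subst h0
      exact ⟨∅, id, by simp, by simp, by simp, by simp, by simp⟩
    · refine ⟨∅, fun _ => v0, by simp, by simp, ?_, by simp, ?_⟩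
      · intro v _ _; exact ⟨hv0, by simp⟩
      · intro c
        refine (card_filter_le _ _).trans ?_
        omega
  · push Not at hn
    obtain ⟨S, side, hSA, hSc, hadj, hbal⟩ := hsep A
    let P : Bool → Finset V := fun c => A.filter fun v => v ∉ S ∧ side v = c
    have hPW : ∀ c, P c ∩ Wt = (A ∩ Wt).filter fun v => v ∉ S ∧ side v = c := by
      intro c
      ext v
      simp only [P, mem_inter, mem_filter]
      tauto
    have hb : ∀ c, 3 * (P c ∩ Wt).card ≤ 2 * n := by
      intro c
      rw [hPW, ← hA]
      exact hbal c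
    have hsum : (P false ∩ Wt).card + (P true ∩ Wt).card ≤ n := by
      rw [← hA, ← card_union_of_disjoint]
      · apply card_le_card
        intro v
        simp only [P, mem_union, mem_inter, mem_filter]
        tauto
      · rw [Finset.disjoint_left]
        intro v
        simp only [P, mem_inter, mem_filter]
        rintro ⟨⟨_, _, h1⟩, _⟩ ⟨⟨_, _, h2⟩, _⟩
        rw [h1] at h2
        exact absurd h2 (by simp)
    have hlt : ∀ c, (P c ∩ Wt).card < n := by
      intro c
      have := hb c
      omega
    choose X κ hX1 hX2 hX3 hX4 hX5 using fun c => ih (P c ∩ Wt).card (hlt c) (P c) rfl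
    have hPA : ∀ c, P c ⊆ A := fun c => filter_subset _ _
    have hmem : ∀ v, v ∈ A → v ∉ S → v ∈ P (side v) := by
      intro v h1 h2
      simp only [P, mem_filter]
      exact ⟨h1, h2, trivial⟩
    have hside : ∀ v c, v ∈ P c → side v = c ∧ v ∉ S := by
      intro v c hv
      simp only [P, mem_filter] at hv
      exact ⟨hv.2.2, hv.2.1⟩
    refine ⟨S ∪ (X false ∪ X true), fun v => κ (side v) v, ?_, ?_, ?_, ?_, ?_⟩
    · intro v hv
      simp only [mem_union] at hv
      rcases hv with hv | hv | hv
      · exact hSA hv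
      · exact hPA _ (hX1 _ hv)
      · exact hPA _ (hX1 _ hv)
    · have hc : (S ∪ (X false ∪ X true)).card ≤ w + ((X false).card + (X true).card) :=
        (card_union_le _ _).trans (add_le_add hSc (card_union_le _ _))
      have h0 := hX2 false
      have h1 := hX2 true
      have hb0 := hb false
      have hb1 := hb true
      calc a * (S ∪ (X false ∪ X true)).card ≤ a * (w + ((X false).card + (X true).card)) :=
            Nat.mul_le_mul_left _ hc
        _ = w * a + (a * (X false).card + a * (X true).card) := by ring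
        _ ≤ w * a + (w * (3 * (P false ∩ Wt).card - a) + w * (3 * (P true ∩ Wt).card - a)) := by
            omega
        _ = w * (a + ((3 * (P false ∩ Wt).card - a) + (3 * (P true ∩ Wt).card - a))) := by ring
        _ ≤ w * (3 * n - a) := Nat.mul_le_mul_left _ (by omega)
    · intro v hvA hvX
      simp only [mem_union, not_or] at hvX
      obtain ⟨hvS, hv0, hv1⟩ := hvX
      have hvP := hmem v hvA hvS
      have hvX' : v ∉ X (side v) := by
        cases side v
        · exact hv0
        · exact hv1
      obtain ⟨h1, h2⟩ := hX3 _ v hvP hvX'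
      refine ⟨hPA _ h1, ?_⟩
      simp only [mem_union, not_or]
      obtain ⟨h3, h4⟩ := hside _ _ h1
      refine ⟨h4, ?_, ?_⟩
      · intro h5
        have := (hside _ _ (hX1 _ h5)).1
        rw [h3] at this
        rw [this] at h2 h5
        exact h2 h5
      · intro h5
        have := (hside _ _ (hX1 _ h5)).1
        rw [h3] at this
        rw [this] at h2 h5
        exact h2 h5
    · intro u v hu hv huX hvX huv
      simp only [mem_union, not_or] at huX hvX
      have hs := hadj u v hu hv huX.1 hvX.1 huv
      have hu' : u ∉ X (side u) := by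
        cases side u
        · exact huX.2.1
        · exact huX.2.2
      have hv' : v ∉ X (side v) := by
        cases side v
        · exact hvX.2.1
        · exact hvX.2.2
      have huP := hmem u hu huX.1
      have hvP := hmem v hv hvX.1
      change κ (side u) u = κ (side v) v
      rw [hs] at huP hu' ⊢
      exact hX4 _ u v huP hvP hu' hv' huv
    · intro c
      by_cases hne : ((A ∩ Wt).filter fun v => v ∉ S ∪ (X false ∪ X true) ∧
          κ (side v) v = c).Nonempty
      · -- all these vertices are on the side of `c`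
        have hsub : ((A ∩ Wt).filter fun v => v ∉ S ∪ (X false ∪ X true) ∧ κ (side v) v = c) ⊆
            (P (side c) ∩ Wt).filter fun v => v ∉ X (side c) ∧ κ (side c) v = c := by
          intro v hv
          simp only [mem_filter, mem_inter, mem_union, not_or] at hv
          obtain ⟨⟨hvA, hvW⟩, ⟨hvS, hv0, hv1⟩, hk⟩ := hv
          have hvP := hmem v hvA hvS
          have hv' : v ∉ X (side v) := by
            cases side v
            · exact hv0
            · exact hv1
          have h1 := (hX3 _ v hvP hv').1
          rw [hk] at h1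
          have h2 := (hside _ _ h1).1
          simp only [mem_filter, mem_inter]
          rw [h2]
          exact ⟨⟨hvP, hvW⟩, hv', hk⟩
        exact (card_le_card hsub).trans (hX5 _ c)
      · rw [not_nonempty_iff_eq_empty] at hne
        rw [hne]
        simp

/-- Module G2: separators give a fragmentation. -/
theorem fragment {V : Type} [Fintype V] [DecidableEq V] (adj : V → V → Prop) (w a : ℕ)
    (ha : 1 ≤ a) (Wt : Finset V)
    (hsep : ∀ A : Finset V, ∃ (S : Finset V) (side : V → Bool), S ⊆ A ∧ S.card ≤ w ∧
      (∀ u v, u ∈ A → v ∈ A → u ∉ S → v ∉ S → adj u v → side u = side v) ∧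
      (∀ c, 3 * ((A ∩ Wt).filter fun v => v ∉ S ∧ side v = c).card ≤ 2 * (A ∩ Wt).card)) :
    ∃ (X : Finset V) (κ : V → V), a * X.card ≤ w * (3 * Wt.card) ∧
      (∀ u v, u ∉ X → v ∉ X → adj u v → κ u = κ v) ∧
      (∀ c, (Wt.filter fun v => v ∉ X ∧ κ v = c).card ≤ a) := by
  obtain ⟨X, κ, _, h1, _, h2, h3⟩ := fragment_aux adj w a ha Wt hsep _ univ rfl
  rw [univ_inter] at h1 h3
  refine ⟨X, κ, h1.trans (Nat.mul_le_mul_left _ (by omega)), ?_, h3⟩
  intro u v hu hv
  exact h2 u v (mem_univ _) (mem_univ _) hu hv

end Pool.Agent.H468R2.Frag
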