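import Pool.Agent.H468R2.Frag.Defs

/-!
# Balanced separators from tree decompositions
-/

open Finset

namespace Pool.Agent.H468R2.Frag

namespace TreeSep

/-- The child of `i` whose subtree contains `j` (`none` if there is none). -/
def grp {T : ℕ} (par : Fin (T + 1) → Fin (T + 1)) (i j : Fin (T + 1)) : Option (Fin (T + 1)) :=
  if h : i < j ∧ par j < j then (if par j = i then some j else grp par i (par j)) else none
termination_by j.val
decreasing_by exact h.2

variable {T : ℕ} {par : Fin (T + 1) → Fin (T + 1)}

lemma grp_none {i j : Fin (T + 1)} (h : j ≤ i) : grp par i j = none := by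
  rw [grp, dif_neg]
  rintro ⟨h1, -⟩
  exact absurd h1 (not_lt.2 h)

variable (hpar : ∀ i, 0 < i → par i < i)
include hpar

lemma grp_child {i j : Fin (T + 1)} (h : i < j) (hj : par j = i) : grp par i j = some j := by
  have h0 : (0 : Fin (T + 1)) < j := lt_of_le_of_lt (Fin.zero_le i) h
  rw [grp, dif_pos ⟨h, hpar j h0⟩, if_pos hj]

lemma grp_rec {i j : Fin (T + 1)} (h : i < j) (hj : par j ≠ i) :
    grp par i j = grp par i (par j) := by
  have h0 : (0 : Fin (T + 1)) < j := lt_of_le_of_lt (Fin.zero_le i) h
  rw [grp, dif_pos ⟨h, hpar j h0⟩, if_neg hj]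

lemma grp_zero (j : Fin (T + 1)) : j = 0 ∨ grp par 0 j ≠ none := by
  induction j using WellFoundedLT.induction with
  | _ j ih =>
    by_cases h : j = 0
    · exact Or.inl h
    · right
      have h0 : (0 : Fin (T + 1)) < j := by
        rw [Fin.pos_iff_ne_zero]
        exact h
      by_cases hj : par j = 0
      · rw [grp_child hpar h0 hj]
        simp
      · rw [grp_rec hpar h0 hj]
        rcases ih (par j) (hpar j h0) with h1 | h1
        · exact absurd h1 hj
        · exact h1

lemma lt_of_grp {i c : Fin (T + 1)} (j : Fin (T + 1)) (h : grp par i j = some c) : i < c := by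
  induction j using WellFoundedLT.induction with
  | _ j ih =>
    by_cases hij : i < j
    · have h0 : (0 : Fin (T + 1)) < j := lt_of_le_of_lt (Fin.zero_le i) hij
      by_cases hj : par j = i
      · rw [grp_child hpar hij hj] at h
        rw [← Option.some.inj h]
        exact hij
      · rw [grp_rec hpar hij hj] at h
        exact ih (par j) (hpar j h0) h
    · rw [grp_none (not_lt.1 hij)] at h
      exact absurd h (by simp)

lemma desc_of_grp {i c : Fin (T + 1)} (j : Fin (T + 1)) (h : grp par i j = some c) :
    j = c ∨ grp par c j ≠ none := by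
  induction j using WellFoundedLT.induction with
  | _ j ih =>
    by_cases hij : i < j
    · have h0 : (0 : Fin (T + 1)) < j := lt_of_le_of_lt (Fin.zero_le i) hij
      by_cases hj : par j = i
      · rw [grp_child hpar hij hj] at h
        exact Or.inl (Option.some.inj h)
      · rw [grp_rec hpar hij hj] at h
        right
        rcases ih (par j) (hpar j h0) h with h1 | h1
        · have h2 : c < j := h1 ▸ hpar j h0
          rw [grp_child hpar h2 h1]
          simp
        · have h2 : c < par j := by
            by_contra h3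
            exact h1 (grp_none (not_lt.1 h3))
          rw [grp_rec hpar (h2.trans (hpar j h0)) h2.ne']
          exact h1
    · rw [grp_none (not_lt.1 hij)] at h
      exact absurd h (by simp)

/-- The group is constant on the nodes containing a vertex outside of the bag `i`. -/
lemma grp_eq {V : Type} {bag : Fin (T + 1) → Finset V} {v : V} {top : Fin (T + 1)}
    (htop : ∀ j, v ∈ bag j → j ≠ top → j ≠ 0 ∧ v ∈ bag (par j)) {i : Fin (T + 1)}
    (hi : v ∉ bag i) (j : Fin (T + 1)) (hj : v ∈ bag j) : grp par i j = grp par i top := by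
  induction j using WellFoundedLT.induction with
  | _ j ih =>
    by_cases hjt : j = top
    · rw [hjt]
    · obtain ⟨h0, h1⟩ := htop j hj hjt
      have h0' : (0 : Fin (T + 1)) < j := by
        rw [Fin.pos_iff_ne_zero]
        exact h0
      have h2 := ih (par j) (hpar j h0') h1
      rw [← h2]
      by_cases hij : i < j
      · apply grp_rec hpar hij
        intro h3
        rw [h3] at h1
        exact hi h1
      · rw [grp_none (not_lt.1 hij), grp_none ((hpar j h0').le.trans (not_lt.1 hij))]

omit hpar

/-- Distribution of groups on two sides. -/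
lemma exists_balanced {C : Type} [Fintype C] [DecidableEq C] (w : C → ℕ) (n : ℕ)
    (htot : ∑ c, w c ≤ n) (hw : ∀ c, 2 * w c ≤ n) :
    ∃ P : Finset C, 3 * ∑ c ∈ P, w c ≤ 2 * n ∧ 3 * ∑ c ∈ Pᶜ, w c ≤ 2 * n := by
  obtain ⟨P, hP, hmax⟩ := Finset.exists_max_image
    ((univ : Finset (Finset C)).filter fun P => 3 * ∑ c ∈ P, w c ≤ 2 * n)
    (fun P => ∑ c ∈ P, w c) ⟨∅, by simp⟩
  simp only [mem_filter, mem_univ, true_and] at hP hmax
  refine ⟨P, hP, ?_⟩
  by_contra hcon
  push Not at hcon
  have hsum := Finset.sum_add_sum_compl P w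
  have h1 : 3 * ∑ c ∈ P, w c < n := by omega
  obtain ⟨c, hc, hc0⟩ : ∃ c ∈ Pᶜ, 0 < w c := by
    by_contra h
    push Not at h
    have : ∑ c ∈ Pᶜ, w c = 0 := Finset.sum_eq_zero fun c hc => by
      have := h c hc
      omega
    omega
  have hcP : c ∉ P := by simpa using hc
  by_cases h3 : 3 * w c ≤ n
  · have h4 : ∑ x ∈ insert c P, w x = w c + ∑ x ∈ P, w x := Finset.sum_insert hcP
    have h5 := hmax (insert c P) (by rw [h4]; omega)
    rw [h4] at h5
    omega
  · have h4 : ∑ x ∈ {c}, w x = w c := Finset.sum_singleton _ _
    have h5 := hmax {c} (by rw [h4]; have := hw c; omega)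
    rw [h4] at h5
    omega

end TreeSep

open TreeSep in
/-- Module G1: tree decompositions give balanced separators; `Wt` is the set of vertices that
count. -/
theorem treeDec_separator {V : Type} [Fintype V] [DecidableEq V] (adj : V → V → Prop) (t : ℕ)
    (h : HasTreeDec adj t) (hsymm : ∀ u v, adj u v → adj v u) (Wt A : Finset V) :
    ∃ (S : Finset V) (side : V → Bool), S ⊆ A ∧ S.card ≤ t + 1 ∧
      (∀ u v, u ∈ A → v ∈ A → u ∉ S → v ∉ S → adj u v → side u = side v) ∧
      (∀ c, 3 * ((A ∩ Wt).filter fun v => v ∉ S ∧ side v = c).card ≤ 2 * (A ∩ Wt).card) := by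
  classical
  obtain ⟨T, par, bag, hpar, hcard, huniq, hadj⟩ := h
  set n := (A ∩ Wt).card with hn
  rcases Nat.eq_zero_or_pos n with hn0 | hn0
  · refine ⟨∅, fun _ => true, by simp, by simp, fun _ _ _ _ _ _ _ => rfl, fun c => ?_⟩
    have he : A ∩ Wt = ∅ := Finset.card_eq_zero.1 hn0
    simp [he]
  choose top htop huniq' using huniq
  have htop' : ∀ v j, v ∈ bag j → j ≠ top v → j ≠ 0 ∧ v ∈ bag (par j) := by
    intro v j hj hne
    by_contra hcon
    apply hne
    apply huniq' v j
    refine ⟨hj, ?_⟩
    by_cases h0 : j = 0
    · exact Or.inl h0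
    · right
      intro h1
      exact hcon ⟨h0, h1⟩
  -- weights
  set W : Fin (T + 1) → ℕ := fun i =>
    ((A ∩ Wt).filter fun v => top v = i ∨ grp par i (top v) ≠ none).card with hW
  have hW0 : W 0 = n := by
    simp only [hW]
    rw [Finset.filter_true_of_mem]
    intro v _
    exact grp_zero hpar (top v)
  obtain ⟨i, hi, himax⟩ := Finset.exists_max_image
    ((univ : Finset (Fin (T + 1))).filter fun i => n < 2 * W i) id
    ⟨0, by simp only [mem_filter, mem_univ, true_and]; omega⟩
  simp only [mem_filter, mem_univ, true_and, id] at hi himax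
  set w : Option (Fin (T + 1)) → ℕ := fun c =>
    ((A ∩ Wt).filter fun v => v ∉ bag i ∧ grp par i (top v) = c).card with hw
  have hw2 : ∀ c, 2 * w c ≤ n := by
    intro c
    rcases c with _ | c
    · have h1 : w none + W i ≤ n := by
        simp only [hw, hW, hn]
        rw [← Finset.card_union_of_disjoint]
        · apply Finset.card_le_card
          intro v hv
          rcases Finset.mem_union.1 hv with h | h
          · exact (Finset.mem_filter.1 h).1
          · exact (Finset.mem_filter.1 h).1
        · rw [Finset.disjoint_left]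
          intro v hv hv'
          rw [Finset.mem_filter] at hv hv'
          rcases hv'.2 with h2 | h2
          · exact hv.2.1 (h2 ▸ (htop v).1)
          · exact h2 hv.2.2
      omega
    · by_cases hc : w (some c) = 0
      · omega
      · have hne : ((A ∩ Wt).filter fun v => v ∉ bag i ∧ grp par i (top v) = some c).Nonempty := by
          rw [← Finset.card_pos]
          exact Nat.pos_of_ne_zero hc
        obtain ⟨v, hv⟩ := hne
        have hic : i < c := lt_of_grp hpar (top v) (Finset.mem_filter.1 hv).2.2
        have h1 : w (some c) ≤ W c := by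
          simp only [hw, hW]
          apply Finset.card_le_card
          intro v hv
          rw [Finset.mem_filter] at hv ⊢
          exact ⟨hv.1, desc_of_grp hpar (top v) hv.2.2⟩
        have h2 : ¬ n < 2 * W c := by
          intro h3
          exact absurd (himax c h3) (not_le.2 hic)
        omega
  have hsum : ∀ P : Finset (Option (Fin (T + 1))), ∑ c ∈ P, w c =
      ((A ∩ Wt).filter fun v => v ∉ bag i ∧ grp par i (top v) ∈ P).card := by
    intro P
    rw [Finset.card_eq_sum_card_fiberwise (f := fun v => grp par i (top v)) (t := P)]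
    · refine Finset.sum_congr rfl fun c hc => ?_
      simp only [hw]
      congr 1
      ext v
      simp only [Finset.mem_filter]
      constructor
      · rintro ⟨h1, h2, h3⟩
        exact ⟨⟨h1, h2, h3 ▸ hc⟩, h3⟩
      · rintro ⟨⟨h1, h2, -⟩, h3⟩
        exact ⟨h1, h2, h3⟩
    · intro v hv
      exact (Finset.mem_filter.1 hv).2.2
  have htot : ∑ c, w c ≤ n := by
    rw [hsum]
    exact Finset.card_filter_le _ _
  obtain ⟨P, hP1, hP2⟩ := exists_balanced w n htot hw2
  refine ⟨A ∩ bag i, fun v => decide (grp par i (top v) ∈ P), Finset.inter_subset_left,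
    (Finset.card_le_card Finset.inter_subset_right).trans (hcard i), ?_, ?_⟩
  · intro u v hu hv huS hvS huv
    have hu' : u ∉ bag i := fun h => huS (Finset.mem_inter.2 ⟨hu, h⟩)
    have hv' : v ∉ bag i := fun h => hvS (Finset.mem_inter.2 ⟨hv, h⟩)
    obtain ⟨j, hj1, hj2⟩ := hadj u v huv
    have e1 := grp_eq hpar (htop' u) hu' j hj1
    have e2 := grp_eq hpar (htop' v) hv' j hj2
    simp only [← e1, ← e2]
  · intro c
    have key : ∀ v ∈ A ∩ Wt, (v ∉ A ∩ bag i ↔ v ∉ bag i) := by
      intro v hv
      have : v ∈ A := (Finset.mem_inter.1 hv).1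
      simp [this]
    rcases c with _ | _
    · rw [hsum] at hP2
      refine le_trans (le_of_eq ?_) hP2
      congr 2
      apply Finset.filter_congr
      intro v hv
      rw [key v hv]
      simp
    · rw [hsum] at hP1
      refine le_trans (le_of_eq ?_) hP1
      congr 2
      apply Finset.filter_congr
      intro v hv
      rw [key v hv]
      simp

end Pool.Agent.H468R2.Frag
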