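import Mathlib
import Pool.Agent.H468R2.Frag.Core
import Pool.Agent.H468R2.Frag.Fragment
import Pool.Agent.H468R2.Frag.TreeSep

/-! # The bound for circuits of small treewidth -/

open Finset

namespace Pool.Agent.H468R2.Frag

open Pool.Agent.H559R2.Sharing

variable {N q : ℕ}

lemma computes_congr (C : Circuit N q) (f : (Fin N → Bool) → Bool) (hC : C.Computes f)
    (x x' : Fin N → Bool) (h : ∀ i g, ReadsVar C i g → x i = x' i) (hx : f x = true) :
    f x' = true := by
  rw [hC] at hx ⊢
  obtain ⟨w, v, hrun, hout⟩ := hx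
  refine ⟨w, v, fun g => ?_, hout⟩
  rw [hrun g]
  apply eval_congr
  intro s hs
  rcases s with (i | j) | g'
  · exact h i g hs
  · rfl
  · rfl

lemma data_read (C : Circuit N q) (hC : C.Computes (gipFun N)) (p : Fin (N / 2)) :
    ∃ g, ReadsVar C (dataIx N p) g := by
  by_contra hcon
  push Not at hcon
  obtain ⟨ρ, h1, h2⟩ := word_restrict N 0 1 (fun _ _ => (p : ℕ)) (fun i => i.elim0)
    (fun _ _ => p.2) (fun i => i.elim0) (fun j l l' h => by omega) (fun i => i.elim0)
    (fun j l i => i.elim0) (fun j l i => i.elim0)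
  have ht : gipFun N (ρ fun _ _ => true) = true := by
    rw [h1]
    simp
  have hf : gipFun N (ρ fun _ _ => false) = true := by
    refine computes_congr C _ hC _ _ ?_ ht
    intro i g hg
    apply h2
    intro j l hil
    exfalso
    have : i = dataIx N p := Fin.ext hil
    rw [this] at hg
    exact hcon g hg
  rw [h1] at hf
  simp at hf

lemma half_le_size (C : Circuit N q) (hC : C.Computes (gipFun N)) : N / 2 ≤ 2 * C.size := by
  classical
  choose g hg using data_read C hC
  calc N / 2 = (univ : Finset (Fin (N / 2))).card := by simp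
    _ ≤ ∑ a : Fin C.size, (univ.filter fun p => g p = a).card := by
        rw [← card_eq_sum_card_fiberwise (fun _ _ => mem_coe.2 (mem_univ _))]
    _ ≤ ∑ a : Fin C.size, 2 := by
        refine sum_le_sum fun a _ => ?_
        refine le_trans ?_ (card_reads_le C a)
        apply card_le_card_of_injOn (dataIx N)
        · intro p hp
          have hp' := (mem_filter.1 (mem_coe.1 hp)).2
          apply mem_coe.2
          rw [mem_filter]
          refine ⟨mem_univ _, ?_⟩
          rw [← hp']
          exact hg p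
        · intro i _ j _ h
          exact dataIx_inj N h
    _ = 2 * C.size := by simp [mul_comm]

lemma blockVars_card_le (C : Circuit N q) {B : Type} [DecidableEq B]
    (κ : Node q C.size → B) (b : B) :
    (blockVars C κ b).card ≤ 2 * (univ.filter fun g : Fin C.size => κ (.inr g) = b).card := by
  classical
  have : blockVars C κ b ⊆ (univ.filter fun g : Fin C.size => κ (.inr g) = b).biUnion
      fun g => univ.filter fun i => ReadsVar C i g := by
    intro i hi
    simp only [blockVars, mem_filter, mem_univ, true_and] at hi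
    obtain ⟨g, h1, h2⟩ := hi
    simp only [mem_biUnion, mem_filter, mem_univ, true_and]
    exact ⟨g, h1, h2⟩
  refine (card_le_card this).trans (card_biUnion_le.trans ?_)
  calc _ ≤ ∑ _g ∈ univ.filter (fun g : Fin C.size => κ (.inr g) = b), 2 :=
        sum_le_sum fun g _ => card_reads_le C g
    _ = _ := by simp [mul_comm]

lemma gateAdj_symm (C : Circuit N q) (u v : Node q C.size) (h : gateAdj C u v) :
    gateAdj C v u := Or.symm h

theorem treewidth_bound (C : Circuit N q) (hC : C.Computes (gipFun N)) (t K : ℕ) (hK : 1 ≤ K)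
    (hT : HasTreeDec (gateAdj C) t) (hs : 4 * C.size ≤ (K + 1) ^ 2 * (N / 2)) :
    N ≤ 2 ^ (32 * (K + 1)) * (t + 1) := by
  classical
  set s := C.size with hsdef
  have hs1 : 1 ≤ s := by
    have := C.out.2
    omega
  set k := K + 1 with hk
  set r0 := Nat.sqrt ((t + 1) * s) with hr0
  set a := r0 + 1 with ha
  have hr1 : 1 ≤ r0 := by
    rw [hr0, Nat.le_sqrt]
    nlinarith
  have hlow : (t + 1) * s ≤ a * a := by
    have := Nat.lt_succ_sqrt ((t + 1) * s)
    rw [← hr0] at this
    exact le_of_lt this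
  have hup : a * a ≤ 4 * ((t + 1) * s) := by
    have h1 : r0 * r0 ≤ (t + 1) * s := Nat.sqrt_le _
    nlinarith
  let Wt : Finset (Node q C.size) := univ.filter fun v => v.isRight
  have hWt : Wt.card = s := by
    have : Wt = univ.image (Sum.inr : Fin C.size → Node q C.size) := by
      ext v
      cases v <;> simp [Wt]
    rw [this, card_image_of_injective _ Sum.inr_injective]
    simp [hsdef]
  obtain ⟨X, κ0, hX, hadj, hsmall⟩ := fragment (gateAdj C) (t + 1) a (by omega) Wt
    (fun A => treeDec_separator (gateAdj C) t hT (gateAdj_symm C) Wt A)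
  rw [hWt] at hX
  let κ : Node q C.size → Node q C.size ⊕ Node q C.size :=
    fun v => if v ∈ X then .inl v else .inr (κ0 v)
  -- blocks are small
  have hblock : ∀ b, (univ.filter fun g : Fin C.size => κ (.inr g) = b).card ≤ a := by
    intro b
    rcases b with v | c
    · have : (univ.filter fun g : Fin C.size => κ (.inr g) = .inl v).card ≤ 1 := by
        rw [card_le_one]
        intro g hg g' hg'
        simp only [mem_filter, mem_univ, true_and, κ] at hg hg'
        split_ifs at hg hg' with h1 h2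
        · rw [Sum.inl.injEq] at hg hg'
          rw [← hg'] at hg
          exact Sum.inr_injective hg
      omega
    · refine le_trans ?_ (hsmall c)
      apply card_le_card_of_injOn (fun g => (Sum.inr g : Node q C.size))
      · intro g hg
        have hg' := (mem_filter.1 (mem_coe.1 hg)).2
        apply mem_coe.2
        simp only [κ] at hg'
        split_ifs at hg' with h1
        · rw [Sum.inr.injEq] at hg'
          simp only [mem_filter, Wt, mem_univ, true_and]
          exact ⟨rfl, h1, hg'⟩
      · intro i _ j _ h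
        exact Sum.inr_injective h
  have hr : ∀ b, (blockVars C κ b).card ≤ 2 * a := by
    intro b
    exact (blockVars_card_le C κ b).trans (Nat.mul_le_mul_left _ (hblock b))
  -- the boundary is small
  have hbd : (boundary C κ).card ≤ 3 * X.card := by
    have hsub : boundary C κ ⊆ X ∪ (univ.filter fun g : Fin C.size => (.inr g : Node q C.size) ∈ X).biUnion
        fun g => univ.filter fun v => Feeds C v g := by
      intro v hv
      simp only [boundary, mem_filter, mem_univ, true_and] at hv
      obtain ⟨g, hg, hne⟩ := hv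
      simp only [mem_union, mem_biUnion, mem_filter, mem_univ, true_and]
      by_cases hvX : v ∈ X
      · exact Or.inl hvX
      · right
        refine ⟨g, ?_, hg⟩
        by_contra hgX
        apply hne
        simp only [κ]
        rw [if_neg hgX, if_neg hvX]
        congr 1
        exact (hadj v (.inr g) hvX hgX (Or.inl ⟨g, rfl, hg⟩)).symm
    refine (card_le_card hsub).trans ((card_union_le _ _).trans ?_)
    have h1 : ((univ.filter fun g : Fin C.size => (.inr g : Node q C.size) ∈ X).biUnion
        fun g => univ.filter fun v => Feeds C v g).card ≤ 2 * X.card := by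
      refine card_biUnion_le.trans ?_
      calc _ ≤ ∑ _g ∈ univ.filter (fun g : Fin C.size => (.inr g : Node q C.size) ∈ X), 2 :=
            sum_le_sum fun g _ => card_feeds_le C g
        _ = 2 * (univ.filter fun g : Fin C.size => (.inr g : Node q C.size) ∈ X).card := by
            simp [mul_comm]
        _ ≤ 2 * X.card := by
            apply Nat.mul_le_mul_left
            apply card_le_card_of_injOn (fun g => (Sum.inr g : Node q C.size))
            · intro g hg
              exact mem_coe.2 (mem_filter.1 (mem_coe.1 hg)).2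
            · intro i _ j _ h
              exact Sum.inr_injective h
    omega
  have hmain := partition_bound C hC κ (2 * a) K hK hr hs
  rw [← hk] at hmain
  have hXa : X.card ≤ 3 * a := by
    have h1 : a * X.card ≤ a * (3 * a) := by
      calc a * X.card ≤ (t + 1) * (3 * s) := hX
        _ = 3 * ((t + 1) * s) := by ring
        _ ≤ 3 * (a * a) := Nat.mul_le_mul_left _ hlow
        _ = a * (3 * a) := by ring
    exact Nat.le_of_mul_le_mul_left h1 (by omega)
  have h12 : (boundary C κ).card + 2 * a + 1 ≤ 12 * a := by omega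
  have hN : N ≤ 2 ^ (13 * k) * (12 * a) := hmain.trans (Nat.mul_le_mul_left _ h12)
  have h8 : 8 * s ≤ k ^ 2 * N := by
    have h1 : k ^ 2 * (2 * (N / 2)) ≤ k ^ 2 * N := Nat.mul_le_mul_left _ (Nat.mul_div_le N 2)
    nlinarith
  rcases Nat.eq_zero_or_pos N with hN0 | hNpos
  · rw [hN0]; exact Nat.zero_le _
  have hsq : N * N ≤ 2 ^ (26 * k) * 72 * (t + 1) * k ^ 2 * N := by
    calc N * N ≤ (2 ^ (13 * k) * (12 * a)) * (2 ^ (13 * k) * (12 * a)) := Nat.mul_le_mul hN hN
      _ = (2 ^ (13 * k) * 2 ^ (13 * k)) * 144 * (a * a) := by ring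
      _ = 2 ^ (26 * k) * 144 * (a * a) := by rw [← pow_add]; congr 3; ring
      _ ≤ 2 ^ (26 * k) * 144 * (4 * ((t + 1) * s)) := Nat.mul_le_mul_left _ hup
      _ = 2 ^ (26 * k) * 72 * (t + 1) * (8 * s) := by ring
      _ ≤ 2 ^ (26 * k) * 72 * (t + 1) * (k ^ 2 * N) := Nat.mul_le_mul_left _ h8
      _ = _ := by ring
  have hN2 : N ≤ 2 ^ (26 * k) * 72 * (t + 1) * k ^ 2 := Nat.le_of_mul_le_mul_right hsq hNpos
  have hkk : k ≤ 2 ^ k := (Nat.lt_two_pow_self).le
  have hk2 : 72 * k ^ 2 ≤ 2 ^ (6 * k) := by
    have h1 : 72 ≤ 2 ^ (4 * k) := by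
      calc 72 ≤ 2 ^ 8 := by norm_num
        _ ≤ 2 ^ (4 * k) := Nat.pow_le_pow_right (by norm_num) (by omega)
    have h2 : k ^ 2 ≤ 2 ^ (2 * k) := by
      calc k ^ 2 ≤ (2 ^ k) ^ 2 := Nat.pow_le_pow_left hkk 2
        _ = 2 ^ (2 * k) := by rw [← pow_mul, mul_comm]
    calc 72 * k ^ 2 ≤ 2 ^ (4 * k) * 2 ^ (2 * k) := Nat.mul_le_mul h1 h2
      _ = 2 ^ (6 * k) := by rw [← pow_add]; congr 1; ring
  calc N ≤ 2 ^ (26 * k) * 72 * (t + 1) * k ^ 2 := hN2
    _ = 2 ^ (26 * k) * (72 * k ^ 2) * (t + 1) := by ring
    _ ≤ 2 ^ (26 * k) * 2 ^ (6 * k) * (t + 1) :=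
        Nat.mul_le_mul_right _ (Nat.mul_le_mul_left _ hk2)
    _ = 2 ^ (32 * k) * (t + 1) := by rw [← pow_add]; congr 2; ring

/-- From the bounds with an integer parameter to the bound with a logarithm. -/
lemma log_bound (N s w : ℕ) (hw : 1 ≤ w) (hwN : w ≤ N) (hs : N / 2 ≤ 2 * s) (hs1 : 1 ≤ s)
    (h : ∀ K : ℕ, 1 ≤ K → 4 * s ≤ (K + 1) ^ 2 * (N / 2) → N ≤ 2 ^ (32 * (K + 1)) * w) :
    (N : ℝ) * (Real.logb 2 (N / w)) ^ 2 ≤ 2 ^ 18 * s := by
  set L := Real.logb 2 (N / w) with hL
  have hw0 : (0 : ℝ) < w := by exact_mod_cast hw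
  have hN0 : (0 : ℝ) < N := by exact_mod_cast (lt_of_lt_of_le hw hwN)
  have hL0 : 0 ≤ L := by
    apply Real.logb_nonneg (by norm_num)
    rw [le_div_iff₀ hw0, one_mul]
    exact_mod_cast hwN
  by_cases hc : L ≤ 128
  · have h1 : (N : ℝ) ≤ 5 * s := by
      have : N ≤ 5 * s := by omega
      exact_mod_cast this
    have h2 : L ^ 2 ≤ 128 ^ 2 := pow_le_pow_left₀ hL0 hc 2
    nlinarith
  · push Not at hc
    set k := ⌊L / 64⌋₊ with hk
    have hk2 : 2 ≤ k := by
      rw [hk]
      apply Nat.le_floor
      push_cast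
      linarith
    have hkL : (k : ℝ) ≤ L / 64 := Nat.floor_le (by positivity)
    have hkL2 : L / 64 < k + 1 := Nat.lt_floor_add_one _
    have hlt : ¬ N ≤ 2 ^ (32 * k) * w := by
      intro hle
      have h1 : (N : ℝ) ≤ 2 ^ (32 * k) * w := by exact_mod_cast hle
      have h2 : (N : ℝ) / w ≤ 2 ^ ((32 * k : ℕ) : ℝ) := by
        rw [div_le_iff₀ hw0, Real.rpow_natCast]
        exact h1
      have h3 : L ≤ ((32 * k : ℕ) : ℝ) := by
        rw [hL]
        rw [Real.logb_le_iff_le_rpow (by norm_num) (by positivity)]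
        exact h2
      push_cast at h3
      linarith
    have hcon : ¬ 4 * s ≤ k ^ 2 * (N / 2) := by
      intro hle
      have hk1 : k - 1 + 1 = k := by omega
      have := h (k - 1) (by omega) (by rw [hk1]; exact hle)
      rw [hk1] at this
      exact hlt this
    push Not at hcon
    have h1 : ((k : ℝ) ^ 2 * ((N / 2 : ℕ) : ℝ)) ≤ 4 * s := by exact_mod_cast hcon.le
    have hN2 : 2 ≤ N := by
      by_contra hh
      have hN1 : N = 1 := by omega
      have hw1 : w = 1 := by omega
      rw [hN1, hw1] at hL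
      norm_num at hL
      rw [hL] at hc
      norm_num at hc
    have h2 : (N : ℝ) / 4 ≤ ((N / 2 : ℕ) : ℝ) := by
      have : N ≤ 4 * (N / 2) := by omega
      have : (N : ℝ) ≤ 4 * ((N / 2 : ℕ) : ℝ) := by exact_mod_cast this
      linarith
    have h3 : L / 128 ≤ k := by linarith
    have h4 : (L / 128) ^ 2 ≤ (k : ℝ) ^ 2 := pow_le_pow_left₀ (by positivity) h3 2
    have h5 : (L / 128) ^ 2 * ((N : ℝ) / 4) ≤ (k : ℝ) ^ 2 * ((N / 2 : ℕ) : ℝ) :=
      mul_le_mul h4 h2 (by positivity) (by positivity)
    have h6 : (L / 128) ^ 2 * ((N : ℝ) / 4) = N * L ^ 2 / 65536 := by ring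
    rw [h6] at h5
    have h7 := h5.trans h1
    rw [div_le_iff₀ (by norm_num)] at h7
    calc (N : ℝ) * L ^ 2 ≤ 4 * s * 65536 := h7
      _ = 2 ^ 18 * s := by ring

theorem size_ge_of_treeDec (C : Circuit N q) (hC : C.Computes (gipFun N)) (w t : ℕ) (htw : t < w)
    (hwN : w ≤ N) (hT : HasTreeDec (gateAdj C) t) :
    (N : ℝ) * (Real.logb 2 (N / w)) ^ 2 ≤ 2 ^ 18 * C.size := by
  have hs1 : 1 ≤ C.size := by
    have := C.out.2
    omega
  refine log_bound N C.size w (by omega) hwN (half_le_size C hC) hs1 ?_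
  intro K hK hle
  exact (treewidth_bound C hC t K hK hT hle).trans (Nat.mul_le_mul_left _ (by omega))

theorem size_ge_of_partition (C : Circuit N q) (hC : C.Computes (gipFun N)) (w : ℕ)
    (hw : 1 ≤ w) (hwN : w ≤ N) (κ : Node q C.size → ℕ) (h1 : ∀ b, (blockVars C κ b).card ≤ w)
    (h2 : (boundary C κ).card ≤ w) :
    (N : ℝ) * (Real.logb 2 (N / w)) ^ 2 ≤ 2 ^ 18 * C.size := by
  classical
  have hs1 : 1 ≤ C.size := by
    have := C.out.2
    omega
  refine log_bound N C.size w hw hwN (half_le_size C hC) hs1 ?_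
  intro K hK hle
  let κ' : Node q C.size → Set.range κ := fun v => ⟨κ v, v, rfl⟩
  have e1 : ∀ b, blockVars C κ' b = blockVars C κ b := by
    intro b
    ext i
    simp only [blockVars, mem_filter, mem_univ, true_and, κ', Subtype.ext_iff]
  have e2 : boundary C κ' = boundary C κ := by
    ext i
    simp only [boundary, mem_filter, mem_univ, true_and, κ', ne_eq, Subtype.ext_iff]
  have := partition_bound C hC κ' w K hK (fun b => by rw [e1]; exact h1 b) hle
  rw [e2] at this
  calc N ≤ 2 ^ (13 * (K + 1)) * ((boundary C κ).card + w + 1) := this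
    _ ≤ 2 ^ (13 * (K + 1)) * (2 ^ (K + 1) * w) := by
        apply Nat.mul_le_mul_left
        have : 2 ^ 2 ≤ 2 ^ (K + 1) := Nat.pow_le_pow_right (by norm_num) (by omega)
        nlinarith
    _ = 2 ^ (14 * (K + 1)) * w := by
        rw [← mul_assoc, ← pow_add]; congr 2; ring
    _ ≤ 2 ^ (32 * (K + 1)) * w := by
        apply Nat.mul_le_mul_right
        apply Nat.pow_le_pow_right (by norm_num)
        omega

end Pool.Agent.H468R2.Frag
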