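import Mathlib

/-! # Recursive separation of a directed graph -/

open Finset

namespace Pool.Agent.H468R2.Frag

/-- The vertices outside `A` with an edge into `A`. -/
noncomputable def inSet {V : Type} [Fintype V] (E : V → V → Prop) (A : Finset V) : Finset V :=
  open Classical in univ.filter fun u => u ∉ A ∧ ∃ v ∈ A, E u v

lemma mem_inSet {V : Type} [Fintype V] (E : V → V → Prop) (A : Finset V) (u : V) :
    u ∈ inSet E A ↔ u ∉ A ∧ ∃ v ∈ A, E u v := by
  classical
  simp [inSet]

theorem recursive_bound {V : Type} [Fintype V] [DecidableEq V] (E : V → V → Prop) (μ o : V → ℕ)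
    (w a c ω : ℕ) (ha : 1 ≤ a) (ho : ∀ v, o v ≤ ω)
    (hsep : ∀ A : Finset V, ∃ (S : Finset V) (side : V → Bool), S ⊆ A ∧ S.card ≤ w ∧
      (∀ u v, u ∈ A → v ∈ A → u ∉ S → v ∉ S → E u v → side u = side v) ∧
      (∀ c, 3 * ∑ v ∈ A.filter (fun v => v ∉ S ∧ side v = c), μ v ≤ 2 * ∑ v ∈ A, μ v))
    (hleaf : ∀ A : Finset V, ∑ v ∈ A, μ v ≤ a → ∑ v ∈ A, o v ≤ c * (inSet E A).card) :
    ∀ (D : ℕ) (A : Finset V), (∑ v ∈ A, μ v) * 2 ^ D ≤ a * 3 ^ D →
      ∃ I : ℕ, a * I ≤ 3 * (∑ v ∈ A, μ v) - a ∧
        ∑ v ∈ A, o v ≤ c * ((I + 1) * ((inSet E A).card + w * D)) + ω * w * I := by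
  intro D
  induction D with
  | zero =>
    intro A hA
    refine ⟨0, by simp, ?_⟩
    have := hleaf A (by simpa using hA)
    simpa using this
  | succ D ih =>
    intro A hA
    by_cases hle : ∑ v ∈ A, μ v ≤ a
    · refine ⟨0, by simp, ?_⟩
      refine (hleaf A hle).trans ?_
      simp only [zero_add, one_mul, mul_zero, add_zero]
      exact Nat.mul_le_mul_left _ (Nat.le_add_right _ _)
    push Not at hle
    obtain ⟨S, side, hSA, hSw, hadj, hbal⟩ := hsep A
    set P : Bool → Finset V := fun b => A.filter fun v => v ∉ S ∧ side v = b with hP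
    have hPin : ∀ b, (inSet E (P b)).card ≤ (inSet E A).card + w := by
      intro b
      have hsub : inSet E (P b) ⊆ inSet E A ∪ S := by
        intro u hu
        rw [mem_inSet] at hu
        obtain ⟨hu1, v, hv, huv⟩ := hu
        simp only [hP, mem_filter] at hu1 hv
        rw [mem_union]
        by_cases huA : u ∈ A
        · right
          by_contra huS
          apply hu1
          refine ⟨huA, huS, ?_⟩
          rw [hadj u v huA hv.1 huS hv.2.1 huv]
          exact hv.2.2
        · left
          rw [mem_inSet]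
          exact ⟨huA, v, hv.1, huv⟩
      exact (card_le_card hsub).trans ((card_union_le _ _).trans (Nat.add_le_add_left hSw _))
    have hbal' : ∀ b, 3 * ∑ v ∈ P b, μ v ≤ 2 * ∑ v ∈ A, μ v := hbal
    have hPD : ∀ b, (∑ v ∈ P b, μ v) * 2 ^ D ≤ a * 3 ^ D := by
      intro b
      have h1 := Nat.mul_le_mul_right (2 ^ D) (hbal' b)
      rw [pow_succ, pow_succ] at hA
      have h2 : 3 * ((∑ v ∈ P b, μ v) * 2 ^ D) ≤ 3 * (a * 3 ^ D) := by
        calc 3 * ((∑ v ∈ P b, μ v) * 2 ^ D) = 3 * (∑ v ∈ P b, μ v) * 2 ^ D := by ring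
          _ ≤ 2 * (∑ v ∈ A, μ v) * 2 ^ D := h1
          _ = (∑ v ∈ A, μ v) * (2 ^ D * 2) := by ring
          _ ≤ a * (3 ^ D * 3) := hA
          _ = 3 * (a * 3 ^ D) := by ring
      exact Nat.le_of_mul_le_mul_left h2 (by norm_num)
    obtain ⟨I0, hI0, hO0⟩ := ih (P false) (hPD false)
    obtain ⟨I1, hI1, hO1⟩ := ih (P true) (hPD true)
    have hsplit : ∀ g : V → ℕ, ∑ v ∈ A, g v =
        ∑ v ∈ S, g v + (∑ v ∈ P false, g v + ∑ v ∈ P true, g v) := by
      intro g
      have e0 : A = S ∪ (P false ∪ P true) := by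
        ext v
        simp only [hP, mem_union, mem_filter]
        constructor
        · intro hv
          by_cases hvS : v ∈ S
          · exact Or.inl hvS
          · right
            cases side v <;> simp [hv, hvS]
        · rintro (hv | hv | hv)
          · exact hSA hv
          · exact hv.1
          · exact hv.1
      have d1 : Disjoint (P false) (P true) := by
        rw [Finset.disjoint_left]
        intro v hv hv'
        simp only [hP, mem_filter] at hv hv'
        rw [hv.2.2] at hv'
        exact absurd hv'.2.2 (by simp)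
      have d2 : Disjoint S (P false ∪ P true) := by
        rw [Finset.disjoint_left]
        intro v hv hv'
        simp only [hP, mem_union, mem_filter] at hv'
        rcases hv' with hv' | hv'
        · exact hv'.2.1 hv
        · exact hv'.2.1 hv
      conv_lhs => rw [e0]
      rw [sum_union d2, sum_union d1]
    have hμ := hsplit μ
    have hS : ∑ v ∈ S, o v ≤ ω * w := by
      calc ∑ v ∈ S, o v ≤ ∑ _v ∈ S, ω := sum_le_sum fun v _ => ho v
        _ = S.card * ω := by simp
        _ ≤ w * ω := Nat.mul_le_mul_right _ hSw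
        _ = ω * w := mul_comm _ _
    refine ⟨I0 + I1 + 1, ?_, ?_⟩
    · have hb0 := hbal' false
      have hb1 := hbal' true
      have e : a * (I0 + I1 + 1) = a * I0 + a * I1 + a := by ring
      rw [e]
      set m := ∑ v ∈ A, μ v with hm
      set m0 := ∑ v ∈ P false, μ v with hm0
      set m1 := ∑ v ∈ P true, μ v with hm1
      omega
    · rw [hsplit o]
      have h0 : c * ((I0 + 1) * ((inSet E (P false)).card + w * D)) ≤
          c * ((I0 + 1) * ((inSet E A).card + w * (D + 1))) := by
        apply Nat.mul_le_mul_left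
        apply Nat.mul_le_mul_left
        have := hPin false
        rw [mul_add, mul_one]
        omega
      have h1 : c * ((I1 + 1) * ((inSet E (P true)).card + w * D)) ≤
          c * ((I1 + 1) * ((inSet E A).card + w * (D + 1))) := by
        apply Nat.mul_le_mul_left
        apply Nat.mul_le_mul_left
        have := hPin true
        rw [mul_add, mul_one]
        omega
      have e : c * ((I0 + I1 + 1 + 1) * ((inSet E A).card + w * (D + 1))) +
          ω * w * (I0 + I1 + 1) =
          c * ((I0 + 1) * ((inSet E A).card + w * (D + 1))) +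
          c * ((I1 + 1) * ((inSet E A).card + w * (D + 1))) +
          ω * w * I0 + ω * w * I1 + ω * w := by ring
      rw [e]
      omega

end Pool.Agent.H468R2.Frag
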