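import Mathlib
import Pool.Agent.NPC.Hard
import Pool.Agent.H468R2.Frag.Defs

/-! Interface. -/

open Finset

namespace Pool.Agent.H468R2.Frag

open Pool.Agent.H559R2.Sharing Pool.Agent.NPC

/-- Module A. -/
theorem gip_disc (m : ℕ) : ∀ (k : ℕ) (S : Finset (Fin m))
    (φ : Fin (k + 1) → (Fin (k + 1) → Fin m → Bool) → ℝ)
    (_ : ∀ j y, |φ j y| ≤ 1)
    (_ : ∀ j y y', (∀ i, i ≠ j → y i = y' i) → φ j y = φ j y'),
    |∑ y : Fin (k + 1) → Fin m → Bool,
      (∏ l ∈ S, if ∀ j, y j l = true then (-1 : ℝ) else 1) * ∏ j, φ j y| ≤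
      (2 : ℝ) ^ ((k + 1) * m) * (1 - (1 / 4 : ℝ) ^ k) ^ S.card := by
  sorry

/-- Module B. -/
theorem few_boundary {N q : ℕ} (C : Circuit N q) (f : (Fin N → Bool) → Bool) (hC : C.Computes f)
    {B : Type} [Fintype B] [DecidableEq B] (κ : Node q C.size → B) (K m : ℕ)
    (p : B → Fin (K + 1)) (ρ : (Fin (K + 1) → Fin m → Bool) → Fin N → Bool)
    (hρ : ∀ b, ∀ i ∈ blockVars C κ b, ∀ y y', (∀ j, j ≠ p b → y j = y' j) → ρ y i = ρ y' i)
    (hf : ∀ y, f (ρ y) = true ↔ Odd (univ.filter fun l => ∀ j, y j l = true).card) :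
    m ≤ 4 ^ K * ((boundary C κ).card + 2) := by
  sorry

/-- Module C. -/
theorem choose_players {B : Type} [Fintype B] [DecidableEq B] {n : ℕ} (D : Fin n → Finset B)
    (k g r : ℕ) (hk : 2 ≤ k) (e : Fin k → Fin g → Fin n) (he : ∀ j, Function.Injective (e j))
    (hD : ∀ j l, (D (e j l)).card ≤ k ^ 2)
    (hr : ∀ b, (univ.filter fun i => b ∈ D i).card ≤ r)
    (hg : 4 * k ^ 3 * 16 ^ k * r < g) :
    ∃ p : B → Fin k, ∀ j,
      g ≤ 2 * 4 ^ k * (univ.filter fun l : Fin g => ∀ b ∈ D (e j l), p b ≠ j).card := by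
  sorry

/-- Module D. -/
theorem word_restrict (N K m : ℕ) (W : Fin (K + 1) → Fin m → ℕ) (sp : Fin K → ℕ)
    (hW : ∀ j l, W j l < N / 2) (hsp : ∀ i, sp i < N / 2)
    (hmono : ∀ j, StrictMono (W j)) (hspm : StrictMono sp)
    (h1 : ∀ (j : Fin (K + 1)) (l : Fin m) (i : Fin K), (i : ℕ) < (j : ℕ) → sp i < W j l)
    (h2 : ∀ (j : Fin (K + 1)) (l : Fin m) (i : Fin K), (j : ℕ) ≤ (i : ℕ) → W j l < sp i) :
    ∃ ρ : (Fin (K + 1) → Fin m → Bool) → Fin N → Bool,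
      (∀ y, gipFun N (ρ y) = true ↔ Odd (univ.filter fun l => ∀ j, y j l = true).card) ∧
      (∀ (i : Fin N) y y', (∀ j l, (i : ℕ) = N / 2 + W j l → y j l = y' j l) → ρ y i = ρ y' i) := by
  sorry

/-- Module E. -/
theorem gipFun_in_P : ∃ V : List Bool → List Bool, PolyTime V ∧
    ∀ x : List Bool, gipFun x.length x.get = true ↔ V x = [true] := by
  sorry

/-- Module G1: tree decompositions give balanced separators; `Wt` is the set of vertices that
count. -/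
theorem treeDec_separator {V : Type} [Fintype V] [DecidableEq V] (adj : V → V → Prop) (t : ℕ)
    (h : HasTreeDec adj t) (hsymm : ∀ u v, adj u v → adj v u) (Wt A : Finset V) :
    ∃ (S : Finset V) (side : V → Bool), S ⊆ A ∧ S.card ≤ t + 1 ∧
      (∀ u v, u ∈ A → v ∈ A → u ∉ S → v ∉ S → adj u v → side u = side v) ∧
      (∀ c, 3 * ((A ∩ Wt).filter fun v => v ∉ S ∧ side v = c).card ≤ 2 * (A ∩ Wt).card) := by
  sorry

/-- Module G2: separators give a fragmentation. -/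
theorem fragment {V : Type} [Fintype V] [DecidableEq V] (adj : V → V → Prop) (w a : ℕ)
    (ha : 1 ≤ a) (Wt : Finset V)
    (hsep : ∀ A : Finset V, ∃ (S : Finset V) (side : V → Bool), S ⊆ A ∧ S.card ≤ w ∧
      (∀ u v, u ∈ A → v ∈ A → u ∉ S → v ∉ S → adj u v → side u = side v) ∧
      (∀ c, 3 * ((A ∩ Wt).filter fun v => v ∉ S ∧ side v = c).card ≤ 2 * (A ∩ Wt).card)) :
    ∃ (X : Finset V) (κ : V → V), a * X.card ≤ w * (3 * Wt.card) ∧
      (∀ u v, u ∉ X → v ∉ X → adj u v → κ u = κ v) ∧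
      (∀ c, (Wt.filter fun v => v ∉ X ∧ κ v = c).card ≤ a) := by
  sorry

end Pool.Agent.H468R2.Frag
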