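import Mathlib
import Pool.Agent.H468R2.Frag.TreeSep

/-!
# Weighted balanced separators from tree decompositions

The weighted form of `treeDec_separator` (the proof is the one of helper506).
-/

open Finset

namespace Pool.Agent.H468R2.Frag

open TreeSep in
/-- Tree decompositions give balanced separators, for vertex weights `μ`. -/
theorem treeDec_separator_weighted {V : Type} [Fintype V] [DecidableEq V] (adj : V → V → Prop)
    (t : ℕ) (h : HasTreeDec adj t) (μ : V → ℕ) (A : Finset V) :
    ∃ (S : Finset V) (side : V → Bool), S ⊆ A ∧ S.card ≤ t + 1 ∧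
      (∀ u v, u ∈ A → v ∈ A → u ∉ S → v ∉ S → adj u v → side u = side v) ∧
      (∀ c, 3 * ∑ v ∈ A.filter (fun v => v ∉ S ∧ side v = c), μ v ≤ 2 * ∑ v ∈ A, μ v) := by
  classical
  obtain ⟨T, par, bag, hpar, hcard, huniq, hadj⟩ := h
  set n := ∑ v ∈ A, μ v with hn
  rcases Nat.eq_zero_or_pos n with hn0 | hn0
  · refine ⟨∅, fun _ => true, by simp, by simp, fun _ _ _ _ _ _ _ => rfl, fun c => ?_⟩
    refine (Nat.mul_le_mul_left 3 (Finset.sum_le_sum_of_subset (Finset.filter_subset _ _))).trans ?_
    rw [← hn, hn0]
  choose top htop huniq' using huniq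
  have htop' : ∀ v j, v ∈ bag j → j ≠ top v → j ≠ 0 ∧ v ∈ bag (par j) := by
    intro v j hj hne
    by_contra hcon
    apply hne
    apply huniq' v j
    refine ⟨hj, ?_⟩
    by_cases h0 : j = 0
    · exact Or.inl h0
    · right
      intro h1
      exact hcon ⟨h0, h1⟩
  -- weights
  set W : Fin (T + 1) → ℕ := fun i =>
    ∑ v ∈ A.filter (fun v => top v = i ∨ grp par i (top v) ≠ none), μ v with hW
  have hW0 : W 0 = n := by
    simp only [hW]
    rw [Finset.filter_true_of_mem]
    intro v _
    exact grp_zero hpar (top v)
  obtain ⟨i, hi, himax⟩ := Finset.exists_max_image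
    ((univ : Finset (Fin (T + 1))).filter fun i => n < 2 * W i) id
    ⟨0, by simp only [mem_filter, mem_univ, true_and]; omega⟩
  simp only [mem_filter, mem_univ, true_and, id] at hi himax
  set w : Option (Fin (T + 1)) → ℕ := fun c =>
    ∑ v ∈ A.filter (fun v => v ∉ bag i ∧ grp par i (top v) = c), μ v with hw
  have hw2 : ∀ c, 2 * w c ≤ n := by
    intro c
    rcases c with _ | c
    · have h1 : w none + W i ≤ n := by
        simp only [hw, hW, hn]
        rw [← Finset.sum_union]
        · apply Finset.sum_le_sum_of_subset
          intro v hv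
          rcases Finset.mem_union.1 hv with h | h
          · exact (Finset.mem_filter.1 h).1
          · exact (Finset.mem_filter.1 h).1
        · rw [Finset.disjoint_left]
          intro v hv hv'
          rw [Finset.mem_filter] at hv hv'
          rcases hv'.2 with h2 | h2
          · exact hv.2.1 (h2 ▸ (htop v).1)
          · exact h2 hv.2.2
      omega
    · by_cases hc : w (some c) = 0
      · omega
      · have hne : (A.filter fun v => v ∉ bag i ∧ grp par i (top v) = some c).Nonempty := by
          by_contra hemp
          rw [Finset.not_nonempty_iff_eq_empty] at hemp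
          apply hc
          simp only [hw]
          rw [hemp]
          simp
        obtain ⟨v, hv⟩ := hne
        have hic : i < c := lt_of_grp hpar (top v) (Finset.mem_filter.1 hv).2.2
        have h1 : w (some c) ≤ W c := by
          simp only [hw, hW]
          apply Finset.sum_le_sum_of_subset
          intro v hv
          rw [Finset.mem_filter] at hv ⊢
          exact ⟨hv.1, desc_of_grp hpar (top v) hv.2.2⟩
        have h2 : ¬ n < 2 * W c := by
          intro h3
          exact absurd (himax c h3) (not_le.2 hic)
        omega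
  have hsum : ∀ P : Finset (Option (Fin (T + 1))), ∑ c ∈ P, w c =
      ∑ v ∈ A.filter (fun v => v ∉ bag i ∧ grp par i (top v) ∈ P), μ v := by
    intro P
    rw [← Finset.sum_fiberwise_of_maps_to (g := fun v => grp par i (top v)) (t := P)]
    · refine Finset.sum_congr rfl fun c hc => ?_
      simp only [hw]
      congr 1
      ext v
      simp only [Finset.mem_filter]
      constructor
      · rintro ⟨h1, h2, h3⟩
        exact ⟨⟨h1, h2, h3 ▸ hc⟩, h3⟩
      · rintro ⟨⟨h1, h2, -⟩, h3⟩
        exact ⟨h1, h2, h3⟩
    · intro v hv
      exact (Finset.mem_filter.1 hv).2.2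
  have htot : ∑ c, w c ≤ n := by
    rw [hsum]
    exact Finset.sum_le_sum_of_subset (Finset.filter_subset _ _)
  obtain ⟨P, hP1, hP2⟩ := exists_balanced w n htot hw2
  refine ⟨A ∩ bag i, fun v => decide (grp par i (top v) ∈ P), Finset.inter_subset_left,
    (Finset.card_le_card Finset.inter_subset_right).trans (hcard i), ?_, ?_⟩
  · intro u v hu hv huS hvS huv
    have hu' : u ∉ bag i := fun h => huS (Finset.mem_inter.2 ⟨hu, h⟩)
    have hv' : v ∉ bag i := fun h => hvS (Finset.mem_inter.2 ⟨hv, h⟩)
    obtain ⟨j, hj1, hj2⟩ := hadj u v huv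
    have e1 := grp_eq hpar (htop' u) hu' j hj1
    have e2 := grp_eq hpar (htop' v) hv' j hj2
    simp only [← e1, ← e2]
  · intro c
    have key : ∀ v ∈ A, (v ∉ A ∩ bag i ↔ v ∉ bag i) := by
      intro v hv
      simp [hv]
    rcases c with _ | _
    · rw [hsum] at hP2
      refine le_trans (le_of_eq ?_) hP2
      congr 2
      apply Finset.filter_congr
      intro v hv
      rw [key v hv]
      simp
    · rw [hsum] at hP1
      refine le_trans (le_of_eq ?_) hP1
      congr 2
      apply Finset.filter_congr
      intro v hv
      rw [key v hv]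
      simp

end Pool.Agent.H468R2.Frag
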