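import Mathlib
import Pool.Agent.NPC.Hard
import Pool.Agent.H468R2.Frag.Defs

/-! Module E: the explicit function is computable in polynomial time. -/

open Finset

namespace Pool.Agent.H468R2.Frag

open Pool.Agent.NPC

section

variable {α : Type} [TEnc α]

lemma bit_get (l : List Bool) (i : ℕ) : bit l.get i = l.getD i false := by
  unfold bit
  split_ifs with h
  · simp [List.getD_eq_getElem?_getD, List.getElem?_eq_getElem h]
  · rw [List.getD_eq_getElem?_getD, List.getElem?_eq_none (by omega)]
    rfl

lemma p_bit {l : α → List Bool} {p : α → ℕ} (hl : Poly l) (hp : Poly p) :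
    Poly (fun a => bit (l a).get (p a)) :=
  (Poly.getD hl hp (NPC.Poly.const false)).congr fun _ => (bit_get _ _).symm

lemma p_half {l : α → List Bool} (hl : Poly l) : Poly (fun a => (l a).length / 2) :=
  Poly.div (Poly.length hl) (NPC.Poly.const 2)

lemma u_half {l : α → List Bool} (hl : Poly l) : UPoly (fun a => (l a).length / 2) :=
  UPoly.of_le (p_half hl) (UPoly.length hl) (fun _ => Nat.div_le_self _ _)

lemma p_sepAt {l : α → List Bool} {p : α → ℕ} (hl : Poly l) (hp : Poly p) :
    Poly (fun a => sepAt (l a).get (p a)) :=
  Poly.and (p_bit hl hp) (p_bit hl (Poly.add (p_half hl) hp))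

lemma p_actAt {l : α → List Bool} {p : α → ℕ} (hl : Poly l) (hp : Poly p) :
    Poly (fun a => actAt (l a).get (p a)) :=
  Poly.not (p_bit hl hp)

/-- The position, cut off at the length. -/
lemma u_cut {l : α → List Bool} {p : α → ℕ} (hl : Poly l) (hp : Poly p) :
    UPoly (fun a => min (p a) (l a).length) :=
  UPoly.of_le (Poly.min hp (Poly.length hl)) (UPoly.length hl) (fun _ => min_le_right _ _)

/-- `cls` with the position cut off at the length. -/
def clsM {N : ℕ} (x : Fin N → Bool) (p : ℕ) : ℕ := cls x (min p N)

lemma u_clsM {l : α → List Bool} {p : α → ℕ} (hl : Poly l) (hp : Poly p) :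
    UPoly (fun a => clsM (l a).get (p a)) := by
  have h : Poly (fun a => (List.range (min (p a) (l a).length)).filter
      fun p' => sepAt (l a).get p') :=
    Poly.filter (l := fun a => List.range (min (p a) (l a).length))
      (p := fun a p' => sepAt (l a).get p') (u_cut hl hp).range
      (p_sepAt (l := fun x : α × ℕ => l x.1) (p := fun x : α × ℕ => x.2)
        (hl.comp (Poly.fst Poly.id)) (Poly.snd Poly.id))
  exact UPoly.length h

/-- `rnk` with the position cut off at the length. -/
def rnkM {N : ℕ} (x : Fin N → Bool) (p : ℕ) : ℕ :=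
  ((List.range (min p N)).filter
    fun p' => actAt x p' && decide (clsM x p' = clsM x p)).length

lemma rnkM_eq {N : ℕ} (x : Fin N → Bool) {p : ℕ} (hp : p ≤ N) : rnkM x p = rnk x p := by
  unfold rnkM rnk
  rw [min_eq_left hp]
  congr 1
  apply List.filter_congr
  intro p' hp'
  rw [List.mem_range] at hp'
  unfold clsM
  rw [min_eq_left hp, min_eq_left (by omega)]

lemma p_rnkM {l : α → List Bool} {p : α → ℕ} (hl : Poly l) (hp : Poly p) :
    Poly (fun a => rnkM (l a).get (p a)) := by
  have h : Poly (fun a => (List.range (min (p a) (l a).length)).filter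
      fun p' => actAt (l a).get p' && decide (clsM (l a).get p' = clsM (l a).get (p a))) := by
    refine Poly.filter (l := fun a => List.range (min (p a) (l a).length))
      (p := fun a p' => actAt (l a).get p' && decide (clsM (l a).get p' = clsM (l a).get (p a)))
      (u_cut hl hp).range ?_
    have hl' : Poly (fun x : α × ℕ => l x.1) := hl.comp (Poly.fst Poly.id)
    have hp' : Poly (fun x : α × ℕ => p x.1) := hp.comp (Poly.fst Poly.id)
    have h2 : Poly (fun x : α × ℕ => x.2) := Poly.snd Poly.id
    exact Poly.and (p_actAt hl' h2) (Poly.decide_eq (u_clsM hl' h2).toPoly (u_clsM hl' hp').toPoly)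
  exact Poly.length h

lemma colAll_eq {N : ℕ} (x : Fin N → Bool) (l : ℕ) : colAll x l =
    (List.range (clsM x (N / 2) + 1)).all fun j => (List.range (N / 2)).any fun p =>
    actAt x p && decide (clsM x p = j) && decide (rnkM x p = l) && bit x (N / 2 + p) := by
  unfold colAll
  have h0 : clsM x (N / 2) = cls x (N / 2) := by
    unfold clsM
    rw [min_eq_left (Nat.div_le_self _ _)]
  rw [h0]
  congr 1
  funext j
  rw [Bool.eq_iff_iff, List.any_eq_true, List.any_eq_true]
  apply exists_congr
  intro p
  apply and_congr_right
  intro hp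
  rw [List.mem_range] at hp
  have h1 : p ≤ N := by omega
  have h2 : clsM x p = cls x p := by
    unfold clsM
    rw [min_eq_left h1]
  rw [h2, rnkM_eq x h1]

lemma p_colAll {l : α → List Bool} {p : α → ℕ} (hl : Poly l) (hp : Poly p) :
    Poly (fun a => colAll (l a).get (p a)) := by
  have hl' : Poly (fun x : (α × ℕ) × ℕ => l x.1.1) := hl.comp (Poly.fst (Poly.fst Poly.id))
  have hp' : Poly (fun x : (α × ℕ) × ℕ => p x.1.1) := hp.comp (Poly.fst (Poly.fst Poly.id))
  have hj : Poly (fun x : (α × ℕ) × ℕ => x.1.2) := Poly.snd (Poly.fst Poly.id)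
  have hq : Poly (fun x : (α × ℕ) × ℕ => x.2) := Poly.snd Poly.id
  have h1 : Poly (fun x : (α × ℕ) × ℕ => actAt (l x.1.1).get x.2 &&
      decide (clsM (l x.1.1).get x.2 = x.1.2) && decide (rnkM (l x.1.1).get x.2 = p x.1.1) &&
      bit (l x.1.1).get ((l x.1.1).length / 2 + x.2)) :=
    Poly.and (Poly.and (Poly.and (p_actAt hl' hq)
      (Poly.decide_eq (u_clsM hl' hq).toPoly hj))
      (Poly.decide_eq (p_rnkM hl' hq) hp')) (p_bit hl' (Poly.add (p_half hl') hq))
  have h2 : Poly (fun x : α × ℕ => (List.range ((l x.1).length / 2)).any fun q =>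
      actAt (l x.1).get q && decide (clsM (l x.1).get q = x.2) &&
      decide (rnkM (l x.1).get q = p x.1) && bit (l x.1).get ((l x.1).length / 2 + q)) :=
    Poly.any (l := fun x : α × ℕ => List.range ((l x.1).length / 2))
      (p := fun x q => actAt (l x.1).get q && decide (clsM (l x.1).get q = x.2) &&
        decide (rnkM (l x.1).get q = p x.1) && bit (l x.1).get ((l x.1).length / 2 + q))
      (u_half (hl.comp (Poly.fst Poly.id))).range h1
  have h3 : Poly (fun a => (List.range (clsM (l a).get ((l a).length / 2) + 1)).all fun j =>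
      (List.range ((l a).length / 2)).any fun q =>
      actAt (l a).get q && decide (clsM (l a).get q = j) &&
      decide (rnkM (l a).get q = p a) && bit (l a).get ((l a).length / 2 + q)) :=
    Poly.all (l := fun a => List.range (clsM (l a).get ((l a).length / 2) + 1))
      (p := fun a j => (List.range ((l a).length / 2)).any fun q =>
        actAt (l a).get q && decide (clsM (l a).get q = j) &&
        decide (rnkM (l a).get q = p a) && bit (l a).get ((l a).length / 2 + q))
      (UPoly.add (u_clsM hl (p_half hl)) (UPoly.const 1)).range h2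
  exact h3.congr fun a => (colAll_eq _ _).symm

theorem p_gipFun {l : α → List Bool} (hl : Poly l) :
    Poly (fun a => gipFun (l a).length (l a).get) := by
  have h1 : Poly (fun a => (List.range ((l a).length / 2)).filter (colAll (l a).get)) :=
    Poly.filter (l := fun a => List.range ((l a).length / 2))
      (p := fun a c => colAll (l a).get c) (u_half hl).range
      (p_colAll (l := fun x : α × ℕ => l x.1) (p := fun x : α × ℕ => x.2)
        (hl.comp (Poly.fst Poly.id)) (Poly.snd Poly.id))
  refine (Poly.decide_eq (Poly.mod (Poly.length h1) (NPC.Poly.const 2)) (NPC.Poly.const 1)).congr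
    fun a => ?_
  unfold gipFun
  rw [decide_eq_decide, Nat.odd_iff]

end

/-- Module E. -/
theorem gipFun_in_P : ∃ V : List Bool → List Bool, PolyTime V ∧
    ∀ x : List Bool, gipFun x.length x.get = true ↔ V x = [true] := by
  refine ⟨fun x => if toT (gipFun x.length x.get) = T.nil then [false] else [true], ?_, ?_⟩
  · have h2 : PC (bits : List Bool → List Bool) T.enc
        (fun x : List Bool => toT (gipFun x.length x.get)) :=
      p_gipFun (α := List Bool) (l := fun x => x) Poly.id
    have h3 : PC (fun x : List Bool => x) (bits : List Bool → List Bool) (fun x => x) := PC.ofBits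
    have h1 : PC (fun x : List Bool => x) T.enc
        (fun x : List Bool => toT (gipFun x.length x.get)) :=
      PC.comp (g := fun x : List Bool => toT (gipFun x.length x.get))
        (f := fun x : List Bool => x) h2 h3
    exact PC.toPolyTime (PC.ite (eb := fun x : List Bool => x) h1 (PC.const _) (PC.const _))
  · intro x
    have e0 : (toT false : T) = T.nil := rfl
    have e1 : (toT true : T) ≠ T.nil := by
      change T.ofBool true ≠ T.nil
      simp [T.ofBool]
    beta_reduce
    generalize gipFun x.length x.get = b
    cases b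
    · simp [e0]
    · simp [e1]

end Pool.Agent.H468R2.Frag
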